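import Mathlib
import Pool.Agent.H202.ZR.Main
import Pool.Agent.H202.ZR.Sym
import Pool.Agent.H202.EF.Main
import Pool.Agent.H202.EF.RS
import Pool.Agent.H202.EF.Gen
import Pool.Agent.H202.EF.Disj
import Pool.Graph.R_seed8.Y327.Full
import Pool.Graph.R_seed8.H905R2.OppD
import Pool.Graph.R_seed8.TH314.CSD.Scales
import Pool.Graph.R_pool_sql_team_seeded_2aa45f1a.Q34.CSD.ThinRich

/-! # MP_edeaa2_an: the number fields of the near returns

Let `n ≥ 3` and let `F` be the product of independent linear forms in `n` variables, given by the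
rows of the matrix `L`; let `F` be bounded away from zero at the nonzero integer points. The positive
diagonal matrices `a` of determinant one and the integral matrices `γ` act by `a L γ`. A near return
of `L` is a matrix `γ ∈ SL_n(ℤ)` for which some `a L γ` is within `ε` of `L`; we also prescribe a cone
`|log a - s α| ≤ δ s`, `s ≥ T`, of directions for `a`, which may be as thin and as far out as we like.
`L` is recurrent if it is a limit of each of its limits; every `L` has recurrent limits. In generic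
directions the near returns are irreducible matrices with real eigenvalues, so each of them gives
totally real fields of degree `n`, generated by its eigenvalues. If `F` is proportional to an integral
form, then all near returns (for small `ε`) are units of one field, up to conjugation.

1. A recurrent counterexample to the conjecture of Cassels and Swinnerton-Dyer has near returns from
   infinitely many fields, in every cone: for each number field `K ⊂ ℝ` there is a near return in the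
   cone which is irreducible with real eigenvalues and has no eigenvalue in `K`. The discriminants of
   the fields of the near returns in a cone are unbounded. If `n` is prime, then for each number field
   `K ⊂ ℂ` there is a near return in the cone whose characteristic polynomial is irreducible over `K`
   (so there are arbitrarily long sequences with linearly disjoint fields).
2. So `F` is proportional to an integral form if and only if for some recurrent limit of `L` and some
   cone the near returns give finitely many fields; or fields with bounded discriminants. (It is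
   enough that each irreducible near return with real eigenvalues has one eigenvalue in a fixed number
   field, and then, for another limit, cone and field, all eigenvalues of all near returns are in one
   field.)

Idea of the proof. As in `NearReturns` (MP_77d073_nt), polynomials which vanish at the near returns of
a recurrent counterexample in a cone vanish on a group `∏ GL_s ∩ SL_n` with `s > 1`. Let all near
returns have an eigenvalue in `K`. Choose products `y_j = z_j ⋯ z_0` of near returns, each `z_j` much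
more precise than the previous ones, for `j ≤ k`, and let `γ` be far more precise. Then the `γ y_j`
are near returns, with eigenvalues `x_j` in `K`. For each embedding `σ` of `K` the absolute value of
`σ(x_j)` is up to a bounded factor an entry of the diagonal matrix of `γ y_j`. If `k` is large, for
two `i < j` these entries have the same place for all embeddings of `K`, so the unit `x_j / x_i` has
bounded conjugates, and is in a finite set which does not depend on `γ`. For each unit `q` the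
condition that `q` times an eigenvalue of `γ y_i` is an eigenvalue of `γ y_j` is a polynomial
condition on `γ`, which is not satisfied by all elements of the group. -/

set_option autoImplicit false

open Filter Topology

namespace Pool.Agent.Results.MP_edeaa2_an.EigenvalueFields

variable {n : ℕ}

/-- the product of the linear forms given by the rows of `L`, at an integer point -/
noncomputable def F (L : Matrix (Fin n) (Fin n) ℝ) (x : Fin n → ℤ) : ℝ :=
  ∏ i : Fin n, ∑ j : Fin n, L i j * (x j : ℝ)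

/-- the product of the linear forms is proportional to a form with integer coefficients -/
def PropInt (L : Matrix (Fin n) (Fin n) ℝ) : Prop :=
  ∃ c : ℝ, c ≠ 0 ∧ ∀ m : Fin n →₀ ℕ, ∃ z : ℤ, MvPolynomial.coeff m
    (c • (∏ i : Fin n, ∑ j : Fin n,
      MvPolynomial.C (L i j) * MvPolynomial.X j : MvPolynomial (Fin n) ℝ)) = (z : ℝ)

/-- the product of the linear forms is bounded away from zero at the nonzero integer points -/
def BoundedBelow (L : Matrix (Fin n) (Fin n) ℝ) : Prop :=
  ∃ ν : ℝ, 0 < ν ∧ ∀ x : Fin n → ℤ, x ≠ 0 → ν ≤ |F L x|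

/-- the limits of the systems `a L γ` with `a` positive of product one and with `γ` integral of
determinant `±1` -/
def Limits (L : Matrix (Fin n) (Fin n) ℝ) : Set (Matrix (Fin n) (Fin n) ℝ) :=
  {L' | ∃ (a : ℕ → Fin n → ℝ) (γ : ℕ → Matrix (Fin n) (Fin n) ℤ),
    (∀ k i, 0 < a k i) ∧ (∀ k, ∏ i, a k i = 1) ∧ (∀ k, |(γ k).det| = 1) ∧
    Tendsto (fun k => Matrix.diagonal (a k) * L * (γ k).map (Int.cast : ℤ → ℝ)) atTop (𝓝 L')}

/-- `L` is a limit of each of its limits. -/
def Recurrent (L : Matrix (Fin n) (Fin n) ℝ) : Prop :=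
  ∀ L' ∈ Limits L, L ∈ Limits L'

/-- The near returns `γ ∈ SL_n(ℤ)` of `L` in a cone of directions: the distance of some `a L γ` from
`L` is at most `ε`, with `a` positive of product one and `|log a - s α| ≤ δ s` for some `s ≥ T`. -/
def Returns (L : Matrix (Fin n) (Fin n) ℝ) (α : Fin n → ℝ) (ε δ T : ℝ) :
    Set (Matrix (Fin n) (Fin n) ℤ) :=
  {γ | γ.det = 1 ∧ ∃ (a : Fin n → ℝ) (s : ℝ), (∀ i, 0 < a i) ∧ ∏ i, a i = 1 ∧ T ≤ s ∧
    (∀ i, |Real.log (a i) - s * α i| ≤ δ * s) ∧
    ∀ i j, |(Matrix.diagonal a * L * γ.map (Int.cast : ℤ → ℝ)) i j - L i j| ≤ ε}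

/-- `z` is an eigenvalue of `γ` -/
def Eigenvalue (γ : Matrix (Fin n) (Fin n) ℤ) (z : ℂ) : Prop :=
  Polynomial.aeval z γ.charpoly = 0

/-- the characteristic polynomial of `γ` is irreducible over the rational numbers and all its roots
are real -/
def IrrRS (γ : Matrix (Fin n) (Fin n) ℤ) : Prop :=
  Irreducible (γ.charpoly.map (Int.castRingHom ℚ)) ∧ ∀ z : ℂ, Eigenvalue γ z → z.im = 0

/-- the number fields `ℚ(x)` generated by the eigenvalues `x` of the matrices `γ` in `S` with
`IrrRS γ` -/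
def Fields (S : Set (Matrix (Fin n) (Fin n) ℤ)) : Set (IntermediateField ℚ ℝ) :=
  {E | ∃ γ ∈ S, IrrRS γ ∧ ∃ x : ℝ, Eigenvalue γ (x : ℂ) ∧ E = IntermediateField.adjoin ℚ {x}}

/-- an irreducible RS-matrix leaves the hyperplanes `L i = 0` invariant (used in the proof) -/
def HasMatrix (L : Matrix (Fin n) (Fin n) ℝ) : Prop :=
  ∃ A : Matrix (Fin n) (Fin n) ℤ,
    A.det = 1 ∧
    Irreducible (A.charpoly.map (Int.castRingHom ℚ)) ∧
    (∀ z : ℂ, Polynomial.aeval z A.charpoly = 0 → z.im = 0) ∧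
    ∀ i : Fin n, ∀ x : Fin n → ℝ, ∑ j, L i j * x j = 0 →
      ∑ j, L i j * ((A.map (Int.cast : ℤ → ℝ)).mulVec x) j = 0

instance : FirstCountableTopology (Matrix (Fin n) (Fin n) ℝ) :=
  inferInstanceAs (FirstCountableTopology (Fin n → Fin n → ℝ))

lemma limits_eq (L : Matrix (Fin n) (Fin n) ℝ) : Limits L = closure (H715R2.Orb L) := by
  ext L'
  constructor
  · rintro ⟨a, γ, ha, ha1, hγ, hlim⟩
    exact mem_closure_of_tendsto hlim (Eventually.of_forall fun k =>
      ⟨a k, γ k, ha k, ha1 k, Int.isUnit_iff_abs_eq.2 (hγ k), rfl⟩)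
  · intro h
    obtain ⟨x, hx, hlim⟩ := mem_closure_iff_seq_limit.1 h
    choose a γ ha ha1 hγ hxeq using hx
    refine ⟨a, γ, ha, ha1, fun k => Int.isUnit_iff_abs_eq.1 (hγ k), ?_⟩
    refine hlim.congr fun k => ?_
    rw [hxeq k]
    rfl

lemma recurrent_iff (L : Matrix (Fin n) (Fin n) ℝ) :
    Recurrent L ↔ Pool.Agent.TH314.CSD.Recurrent L := by
  unfold Recurrent Pool.Agent.TH314.CSD.Recurrent
  simp only [limits_eq]

lemma minB_of_recurrent {h : Matrix (Fin n) (Fin n) ℝ} (hh : Pool.Agent.TH314.CSD.Recurrent h) :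
    Y327.MinB id (closure (H715R2.Orb h)) := by
  refine ⟨isClosed_closure, ⟨h, subset_closure (H715R2.mem_orb_self h)⟩,
    Y327.invB_of_inv (TH314.CSD.inv_closure h) id, fun Z hZ hZc hZne hZinv => ?_⟩
  obtain ⟨h', hh'⟩ := hZne
  refine subset_antisymm hZ ?_
  have h1 : closure (H715R2.Orb h') ⊆ Z := by
    refine closure_minimal ?_ hZc
    rintro _ ⟨a, γ, ha0, ha1, hγ, rfl⟩
    exact hZinv h' hh' a γ ⟨ha0, ha1, fun i j hij => by rw [show i = j from hij]⟩ hγ
  exact (TH314.CSD.orb_closure_trans (hh h' (hZ hh'))).trans h1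

lemma det_ne {L : Matrix (Fin n) (Fin n) ℝ} (h : L.det ≠ 0) : LinearIndependent ℝ L :=
  Matrix.linearIndependent_rows_of_det_ne_zero h

/-- near returns and closeness of the entries -/
lemma nr_of_close {L : Matrix (Fin n) (Fin n) ℝ} (hL : L.det ≠ 0) {e : ℝ} (he : 0 < e) :
    ∃ ε : ℝ, 0 < ε ∧ ∀ (a : Fin n → ℝ) (γ : Matrix (Fin n) (Fin n) ℤ), (∀ i, 0 < a i) →
      ∏ i, a i = 1 → γ.det = 1 →
      (∀ i j, |(Matrix.diagonal a * L * γ.map (Int.cast : ℤ → ℝ)) i j - L i j| ≤ ε) →
      H202.EF.Nr L e a γ := by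
  have hLu : IsUnit L.det := isUnit_iff_ne_zero.2 hL
  set C : ℝ := ∑ k, ∑ j, |L⁻¹ k j| with hC
  have hC0 : 0 ≤ C := Finset.sum_nonneg fun _ _ => Finset.sum_nonneg fun _ _ => abs_nonneg _
  refine ⟨e / (C + 1), div_pos he (by linarith), fun a γ ha ha1 hγ hcl => ?_⟩
  set X := Matrix.diagonal a * L * γ.map (Int.cast : ℤ → ℝ) with hX
  refine ⟨ha, ha1, hγ, (X - L) * L⁻¹, fun i j => ?_, ?_⟩
  · have h1 : |((X - L) * L⁻¹) i j| ≤ e / (C + 1) * C := by
      rw [Matrix.mul_apply, hC, Finset.mul_sum]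
      refine (Finset.abs_sum_le_sum_abs _ _).trans (Finset.sum_le_sum fun k _ => ?_)
      rw [abs_mul]
      refine mul_le_mul (hcl i k) (Finset.single_le_sum (f := fun j => |L⁻¹ k j|)
        (fun j _ => abs_nonneg _) (Finset.mem_univ j)) (abs_nonneg _) ?_
      exact (div_pos he (by linarith)).le
    refine lt_of_le_of_lt h1 ?_
    rw [div_mul_eq_mul_div, div_lt_iff₀ (by linarith)]
    nlinarith
  · rw [Matrix.add_mul, Matrix.one_mul, Matrix.mul_assoc (X - L), Matrix.nonsing_inv_mul _ hLu,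
      Matrix.mul_one]
    abel

lemma close_of_nr {L : Matrix (Fin n) (Fin n) ℝ} {ε : ℝ} (hε : 0 < ε) :
    ∃ e : ℝ, 0 < e ∧ ∀ (a : Fin n → ℝ) (γ : Matrix (Fin n) (Fin n) ℤ), H202.EF.Nr L e a γ →
      ∀ i j, |(Matrix.diagonal a * L * γ.map (Int.cast : ℤ → ℝ)) i j - L i j| ≤ ε := by
  set C : ℝ := ∑ k, ∑ j, |L k j| with hC
  have hC0 : 0 ≤ C := Finset.sum_nonneg fun _ _ => Finset.sum_nonneg fun _ _ => abs_nonneg _
  refine ⟨ε / (C + 1), div_pos hε (by linarith), ?_⟩
  rintro a γ ⟨-, -, -, E, hE, h⟩ i j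
  rw [h, Matrix.add_mul, Matrix.one_mul, Matrix.add_apply, add_sub_cancel_left]
  have h1 : |(E * L) i j| ≤ ε / (C + 1) * C := by
    rw [Matrix.mul_apply, hC, Finset.mul_sum]
    refine (Finset.abs_sum_le_sum_abs _ _).trans (Finset.sum_le_sum fun k _ => ?_)
    rw [abs_mul]
    refine mul_le_mul (hE i k).le (Finset.single_le_sum (f := fun j => |L k j|)
      (fun j _ => abs_nonneg _) (Finset.mem_univ j)) (abs_nonneg _) ?_
    exact (div_pos hε (by linarith)).le
  refine h1.trans ?_
  rw [div_mul_eq_mul_div, div_le_iff₀ (by linarith)]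
  nlinarith

/-- the near returns of a system with an invariant matrix -/
lemma returns_diag {L : Matrix (Fin n) (Fin n) ℝ} (hL : L.det ≠ 0)
    (h : HasMatrix L) : ∃ (K : IntermediateField ℚ ℝ) (_ : FiniteDimensional ℚ K) (ε : ℝ),
      0 < ε ∧ ∀ (α : Fin n → ℝ) (δ T : ℝ), ∀ γ ∈ Returns L α ε δ T,
      ∃ c : Fin n → ℝ, (∀ i, c i ∈ K) ∧
        L * γ.map (Int.cast : ℤ → ℝ) = Matrix.diagonal c * L := by
  classical
  obtain ⟨A, -, hA2, -, hA4⟩ := h
  obtain ⟨lam, hlam, hAL⟩ := Y327.eig_of_opp hL hA2 hA4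
  have hLu : IsUnit L.det := isUnit_iff_ne_zero.2 hL
  have hLL : L * L⁻¹ = 1 := Matrix.mul_nonsing_inv _ hLu
  obtain ⟨ε, hε, hε2⟩ := H202.ZR.commute_all hL
  -- the eigenvalues are integral
  have hdet : ∀ i, (A.map (Int.cast : ℤ → ℝ) - lam i • 1).det = 0 := by
    intro i
    have h1 : L * (A.map (Int.cast : ℤ → ℝ) - lam i • 1) =
        Matrix.diagonal (fun j => lam j - lam i) * L := by
      have h2 : L * A.map (Int.cast : ℤ → ℝ) = Matrix.diagonal lam * L := hAL
      rw [Matrix.mul_sub, h2, Matrix.mul_smul, Matrix.mul_one]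
      ext j k
      rw [Matrix.sub_apply, Matrix.smul_apply, Matrix.diagonal_mul, Matrix.diagonal_mul,
        smul_eq_mul]
      ring
    have h3 := congrArg Matrix.det h1
    rw [Matrix.det_mul, Matrix.det_mul, Matrix.det_diagonal,
      Finset.prod_eq_zero (Finset.mem_univ i) (sub_self _), zero_mul] at h3
    exact (mul_eq_zero.1 h3).resolve_left hL
  have hint : ∀ i, IsIntegral ℚ (lam i) := fun i => (H202.EF.eigen_integral (hdet i)).tower_top
  set K : IntermediateField ℚ ℝ := IntermediateField.adjoin ℚ (Set.range lam) with hK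
  have hfin : FiniteDimensional ℚ K := by
    have : Finite (Set.range lam) := Set.finite_range lam
    exact IntermediateField.finiteDimensional_adjoin (fun x hx => by
      obtain ⟨i, rfl⟩ := hx
      exact hint i)
  have hlamK : ∀ i, lam i ∈ K := fun i =>
    IntermediateField.subset_adjoin ℚ _ ⟨i, rfl⟩
  -- the rows of `L` are proportional to vectors over `K`
  have hrow : ∀ i, ∃ (v : Fin n → K) (w : ℝ), v ≠ 0 ∧ ∀ j, ((v j : K) : ℝ) = w * L i j := by
    intro i
    have h1 := (H202.EF.conj_eigen (K := K) (A := ℝ) (B := ℝ) (algebraMap K ℝ)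
      (algebraMap K ℝ).injective (algebraMap K ℝ) (γ := A) (x := ⟨lam i, hlamK i⟩)
      (hdet i)).1
    obtain ⟨v, hv, hv2⟩ := Matrix.exists_vecMul_eq_zero_iff.2 h1
    set vR : Fin n → ℝ := fun j => ((v j : K) : ℝ) with hvR
    have h2 : Matrix.vecMul vR (A.map (Int.cast : ℤ → ℝ)) = lam i • vR := by
      funext j
      have h3 := congrFun hv2 j
      rw [Matrix.vecMul_sub, Pi.sub_apply, Matrix.vecMul_smul, Matrix.vecMul_one, Pi.smul_apply,
        smul_eq_mul, Pi.zero_apply, sub_eq_zero] at h3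
      have h4 := congrArg (fun x : K => (x : ℝ)) h3
      simp only [Matrix.vecMul, dotProduct, Matrix.map_apply] at h4
      rw [Pi.smul_apply, smul_eq_mul]
      simp only [Matrix.vecMul, dotProduct, Matrix.map_apply, hvR]
      push_cast at h4
      exact h4
    obtain ⟨w, hw⟩ : ∃ w : Fin n → ℝ, w = Matrix.vecMul vR L⁻¹ := ⟨_, rfl⟩
    have h3 : Matrix.vecMul w L = vR := by
      rw [hw, Matrix.vecMul_vecMul, Matrix.nonsing_inv_mul _ hLu, Matrix.vecMul_one]
    have h4 : ∀ j, j ≠ i → w j = 0 := by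
      intro j hj
      have h5 : Matrix.vecMul w (Matrix.diagonal lam * L) = lam i • Matrix.vecMul w L := by
        have h6 : L * A.map (Int.cast : ℤ → ℝ) = Matrix.diagonal lam * L := hAL
        rw [← h6, ← Matrix.vecMul_vecMul, h3, h2]
      have h7 : Matrix.vecMul w (Matrix.diagonal lam) = lam i • w := by
        have h8 : Matrix.vecMul (Matrix.vecMul w (Matrix.diagonal lam * L)) L⁻¹ =
            Matrix.vecMul (lam i • Matrix.vecMul w L) L⁻¹ := by rw [h5]
        rw [Matrix.vecMul_vecMul, Matrix.mul_assoc, hLL, Matrix.mul_one, Matrix.smul_vecMul,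
          Matrix.vecMul_vecMul, hLL, Matrix.vecMul_one] at h8
        exact h8
      have h9 := congrFun h7 j
      rw [Matrix.vecMul_diagonal, Pi.smul_apply, smul_eq_mul] at h9
      have h10 : (lam j - lam i) * w j = 0 := by linarith
      exact (mul_eq_zero.1 h10).resolve_left (sub_ne_zero.2 fun h => hj (hlam h))
    refine ⟨v, w i, hv, fun j => ?_⟩
    have h5 := congrFun h3 j
    rw [Matrix.vecMul, dotProduct, Finset.sum_eq_single i] at h5
    · exact h5.symm
    · intro k _ hk
      rw [h4 k hk, zero_mul]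
    · intro h
      exact absurd (Finset.mem_univ _) h
  refine ⟨K, hfin, ε, hε, ?_⟩
  rintro α δ T γ ⟨hγ, a, s, ha, ha1, hs, hs2, hcl⟩
  have hA : A.map (Int.cast : ℤ → ℚ) ∈ H202.ZR.Sy L := by
    refine ⟨lam, ?_⟩
    rw [← hAL]
    congr 1
  have h1 := hε2 a γ (by rw [hγ]; exact isUnit_one) hcl (fun i => (ha i).ne') _ hA
  set G : Matrix (Fin n) (Fin n) ℝ := γ.map (Int.cast : ℤ → ℝ) with hG
  have h2 : H715R2.zR A * G = G * H715R2.zR A := by
    have h3 := congrArg (fun X : Matrix (Fin n) (Fin n) ℚ => X.map (Rat.cast : ℚ → ℝ)) h1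
    have h4 : ∀ B C : Matrix (Fin n) (Fin n) ℤ,
        (B.map (Int.cast : ℤ → ℚ) * C.map (Int.cast : ℤ → ℚ)).map (Rat.cast : ℚ → ℝ) =
        B.map (Int.cast : ℤ → ℝ) * C.map (Int.cast : ℤ → ℝ) := by
      intro B C
      ext i j
      simp [Matrix.mul_apply]
    simp only [h4] at h3
    exact h3
  -- the matrix `L G L⁻¹` commutes with `diag(lam)`
  set X := L * G * L⁻¹ with hX
  have h3 : Matrix.diagonal lam * X = X * Matrix.diagonal lam := by
    have e1 : L⁻¹ * L = 1 := Matrix.nonsing_inv_mul _ hLu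
    have e2 : L * L⁻¹ = 1 := Matrix.mul_nonsing_inv _ hLu
    calc Matrix.diagonal lam * X = (Matrix.diagonal lam * L) * G * L⁻¹ := by
          rw [hX]
          simp only [Matrix.mul_assoc]
      _ = L * (H715R2.zR A * G) * L⁻¹ := by
          rw [← hAL]
          simp only [Matrix.mul_assoc]
      _ = L * G * (L⁻¹ * L) * H715R2.zR A * L⁻¹ := by
          rw [h2, e1, Matrix.mul_one]
          simp only [Matrix.mul_assoc]
      _ = X * (L * H715R2.zR A) * L⁻¹ := by
          rw [hX]
          simp only [Matrix.mul_assoc]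
      _ = X * Matrix.diagonal lam * (L * L⁻¹) := by
          rw [hAL]
          simp only [Matrix.mul_assoc]
      _ = X * Matrix.diagonal lam := by rw [e2, Matrix.mul_one]
  have h4 : X = Matrix.diagonal fun i => X i i := by
    ext i j
    by_cases hij : i = j
    · subst hij
      rw [Matrix.diagonal_apply_eq]
    · rw [Matrix.diagonal_apply_ne _ hij]
      have h5 := congrFun (congrFun h3 i) j
      rw [Matrix.diagonal_mul, Matrix.mul_diagonal] at h5
      have h6 : (lam i - lam j) * X i j = 0 := by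
        rw [sub_mul, h5]
        ring
      exact (mul_eq_zero.1 h6).resolve_left (sub_ne_zero.2 fun h => hij (hlam h))
  have h5 : L * G = Matrix.diagonal (fun i => X i i) * L := by
    rw [← h4, hX, Matrix.mul_assoc, Matrix.nonsing_inv_mul _ hLu, Matrix.mul_one]
  refine ⟨fun i => X i i, fun i => ?_, h5⟩
  obtain ⟨v, w, hv, hvw⟩ := hrow i
  obtain ⟨j, hj⟩ := Function.ne_iff.1 hv
  have hj' : ((v j : K) : ℝ) ≠ 0 := by
    intro h
    exact hj (by exact_mod_cast h)
  have h6 : X i i * ((v j : K) : ℝ) = ∑ k, ((v k : K) : ℝ) * (γ k j : ℝ) := by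
    have h7 := congrFun (congrFun h5 i) j
    rw [Matrix.diagonal_mul, Matrix.mul_apply] at h7
    rw [hvw j]
    calc X i i * (w * L i j) = w * (X i i * L i j) := by ring
      _ = w * ∑ k, L i k * G k j := by rw [h7]
      _ = ∑ k, ((v k : K) : ℝ) * (γ k j : ℝ) := by
          rw [Finset.mul_sum]
          refine Finset.sum_congr rfl fun k _ => ?_
          rw [hvw k]
          have : G k j = (γ k j : ℝ) := rfl
          rw [this]
          ring
  have h7 : X i i = (∑ k, ((v k : K) : ℝ) * (γ k j : ℝ)) / ((v j : K) : ℝ) := by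
    rw [← h6, mul_div_cancel_right₀ _ hj']
  show X i i ∈ K
  rw [h7]
  refine K.div_mem (K.sum_mem fun k _ => K.mul_mem (v k).2 ?_) (v j).2
  exact K.intCast_mem _

/-- the near returns give zeros of `f` in a block -/
lemma apply_closure (hn : 3 ≤ n) {L : Matrix (Fin n) (Fin n) ℝ} (hL : L.det ≠ 0)
    (hb : BoundedBelow L) (hrec : Recurrent L) {R : Fin n → Fin n → Prop} (hR : Equivalence R)
    (hsmall : ∀ i j, i ≠ j → R i j → Q34.CSDThin.Small (closure (H715R2.Orb L)) i j)
    {α : Fin n → ℝ} (hα : ∑ i, α i = 0) {ε δ T : ℝ} (hε : 0 < ε) (hδ : 0 < δ)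
    {f : Matrix (Fin n) (Fin n) ℝ → ℝ} (hf : f ∈ H202.ZR.PF n)
    (h0 : ∀ γ ∈ Returns L α ε δ T, f (γ.map (Int.cast : ℤ → ℝ)) = 0)
    {g : Matrix (Fin n) (Fin n) ℝ} (hg : g.det = 1) (hgR : H202.ZR.Bl R (L * g * L⁻¹)) :
    f g = 0 := by
  obtain ⟨ν, hν, hF⟩ := hb
  have hnu : H715R2.HasNu L ν := hF
  have hLu : IsUnit L.det := isUnit_iff_ne_zero.2 hL
  have hself := subset_closure (H715R2.mem_orb_self L)
  have h1 := H202.ZR.closure_returns (d := n) (by omega) (abs_pos.2 hL) hν
    (minB_of_recurrent ((recurrent_iff L).1 hrec)) (fun h hh => H715R2.abs_det_closure hh)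
    (fun h hh => H715R2.hasNu_closure hnu hh) hR hsmall hself hα (ε := δ) (T₀ := T) hδ
    (U := {Y | ∀ i j, |Y i j - L i j| < ε}) (H202.ZR.isOpen_entries L ε)
    (by
      intro i j
      rw [sub_self, abs_zero]
      exact hε)
    (f := fun Y => f (L⁻¹ * Y)) (H202.ZR.PF_mul_left hf L⁻¹)
    (fun a γ s ha ha1 hγ hs hs2 hmem => by
      rw [← Matrix.mul_assoc, Matrix.nonsing_inv_mul _ hLu, Matrix.one_mul]
      exact h0 γ ⟨hγ, a, s, ha, ha1, hs, hs2, fun i j => (hmem i j).le⟩)
    (X := L * g * L⁻¹) hgR (by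
      rw [Matrix.det_mul, Matrix.det_mul, hg, mul_one, Matrix.det_nonsing_inv,
        Ring.inverse_eq_inv', mul_inv_cancel₀ hL])
  have h2 : L⁻¹ * (L * g * L⁻¹ * L) = g := by
    rw [Matrix.mul_assoc (L * g), Matrix.nonsing_inv_mul _ hLu, Matrix.mul_one,
      ← Matrix.mul_assoc, Matrix.nonsing_inv_mul _ hLu, Matrix.one_mul]
  simp only [h2] at h1
  exact h1

/-- the block structure of a recurrent limit of a counterexample -/
lemma rich (hn : 3 ≤ n) {L L' : Matrix (Fin n) (Fin n) ℝ} (hL : L.det ≠ 0) (hb : BoundedBelow L)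
    (hno : ¬ HasMatrix L) (hL' : L' ∈ Limits L) (hrec : Recurrent L') :
    ∃ s : ℕ, 1 < s ∧ s ∣ n ∧
      Q34.CSDThin.Rich (closure (H715R2.Orb L')) (Y327.Sam L') s := by
  obtain ⟨ν, hν, hF⟩ := hb
  have hnu : H715R2.HasNu L ν := hF
  have hint : ¬ H715R2.PropInt L := fun h => hno
    (Pool.Agent.H905R2.Opp.opp_of_propInt (by omega) (det_ne hL) ⟨ν, hν, hF⟩ h)
  rw [limits_eq] at hL'
  exact Q34.CSDThin.exists_rich hn hL hint hν hnu (TH314.CSD.orb_closure_trans hL')
    (minB_of_recurrent ((recurrent_iff L').1 hrec)) (subset_closure (H715R2.mem_orb_self L'))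

lemma det_limit {L L' : Matrix (Fin n) (Fin n) ℝ} (hL : L.det ≠ 0) (hL' : L' ∈ Limits L) :
    L'.det ≠ 0 := by
  rw [limits_eq] at hL'
  rw [← abs_ne_zero, H715R2.abs_det_closure hL', abs_ne_zero]
  exact hL

lemma bounded_limit {L L' : Matrix (Fin n) (Fin n) ℝ} (hb : BoundedBelow L)
    (hL' : L' ∈ Limits L) : BoundedBelow L' := by
  rw [limits_eq] at hL'
  obtain ⟨ν, hν, hF⟩ := hb
  exact ⟨ν, hν, H715R2.hasNu_closure hF hL'⟩

/-- a recurrent limit of a system with an invariant matrix -/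
lemma exists_rec (hn : 3 ≤ n) {L : Matrix (Fin n) (Fin n) ℝ} (hL : L.det ≠ 0)
    (hb : BoundedBelow L) (h : HasMatrix L) : ∃ L' ∈ Limits L, Recurrent L' ∧ HasMatrix L' := by
  obtain ⟨ν, hν, hF⟩ := id hb
  have hnu : H715R2.HasNu L ν := hF
  obtain ⟨M, hMg, hM⟩ := Y327.exists_minB (by omega) id (abs_pos.2 hL) hν isClosed_closure
    ⟨L, subset_closure (H715R2.mem_orb_self L)⟩
    (Y327.invB_of_inv (TH314.CSD.inv_closure L) id)
    (fun _ hh => H715R2.abs_det_closure hh) (fun _ hh => H715R2.hasNu_closure hF hh)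
  obtain ⟨L', hL'⟩ := hM.ne
  have hL'2 : L' ∈ Limits L := by
    rw [limits_eq]
    exact hMg hL'
  refine ⟨L', hL'2, ?_, ?_⟩
  · rw [recurrent_iff]
    refine TH314.CSD.recurrent_of_minimal hM.closed (Y327.inv_of_invB hM.inv)
      (fun Y hY hYc hYn hYi => hM.min Y hY hYc hYn (Y327.invB_of_inv hYi id)) hL'
  · obtain ⟨A, -, hA2, -, hA4⟩ := h
    have hP := Y327.propInt_of_opp hn hL hν hnu hA2 hA4
    have hP' := Y327.propInt_closure hn hL hν hnu hP (hMg hL')
    exact Pool.Agent.H905R2.Opp.opp_of_propInt (by omega) (det_ne (det_limit hL hL'2))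
      (bounded_limit hb hL'2) hP'

lemma sam_equiv (L : Matrix (Fin n) (Fin n) ℝ) : Equivalence (Y327.Sam L) :=
  ⟨Y327.Sam.refl L, fun h => h.symm, fun h h' => h.trans h'⟩

/-- the real eigenvalues -/
lemma det_iff {γ : Matrix (Fin n) (Fin n) ℤ} (x : ℝ) :
    (γ.map (Int.cast : ℤ → ℝ) - x • 1).det = 0 ↔ Eigenvalue γ (x : ℂ) := by
  have h1 : Polynomial.aeval (x : ℂ) γ.charpoly = ((Polynomial.aeval x γ.charpoly : ℝ) : ℂ) := by
    have h2 := Polynomial.aeval_algebraMap_apply ℂ x γ.charpoly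
    exact h2
  unfold Eigenvalue
  rw [h1, Complex.ofReal_eq_zero]
  have h3 : Polynomial.aeval x γ.charpoly = (γ.map (algebraMap ℤ ℝ)).charpoly.eval x := by
    rw [Matrix.charpoly_map, Polynomial.eval_map, Polynomial.aeval_def]
  have h4 : Matrix.scalar (Fin n) x - γ.map (algebraMap ℤ ℝ) =
      -(γ.map (Int.cast : ℤ → ℝ) - x • 1) := by
    rw [neg_sub]
    congr 1
    rw [Matrix.smul_one_eq_diagonal]
    rfl
  rw [h3, Matrix.eval_charpoly, h4, Matrix.det_neg]
  have h5 : ((-1 : ℝ)) ^ Fintype.card (Fin n) ≠ 0 := pow_ne_zero _ (by norm_num)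
  constructor
  · intro h
    rw [h, mul_zero]
  · intro h
    exact (mul_eq_zero.1 h).resolve_left h5

/-- the eigenvalues of the near returns which are irreducible RS-matrices -/
lemma exists_good_return (hn : 3 ≤ n) {L L' : Matrix (Fin n) (Fin n) ℝ} (hL : L.det ≠ 0)
    (hb : BoundedBelow L) (hno : ¬ HasMatrix L) (hL' : L' ∈ Limits L) (hrec : Recurrent L')
    {α : Fin n → ℝ} (hα : ∑ i, α i = 0) {ε δ T : ℝ} (hε : 0 < ε) (hδ : 0 < δ)
    (K : IntermediateField ℚ ℝ) (hK : FiniteDimensional ℚ K) :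
    ∃ γ ∈ Returns L' α ε δ T, IrrRS γ ∧ ∀ x ∈ K, ¬ Eigenvalue γ ((x : ℝ) : ℂ) := by
  classical
  by_contra hcon
  push Not at hcon
  obtain ⟨s, hs, -, hR⟩ := rich hn hL hb hno hL' hrec
  have hdet := det_limit hL hL'
  have hb' := bounded_limit hb hL'
  have hLu : IsUnit L'.det := isUnit_iff_ne_zero.2 hdet
  obtain ⟨α', δ', T', hα', hδ', hT', hsub, hgen⟩ :=
    H202.EF.exists_cone' (n := n) (by omega) hα (T₀ := T) hδ
  obtain ⟨e, he, hclose⟩ := close_of_nr (L := L') hε
  have : NumberField K := { to_charZero := inferInstance, to_finiteDimensional := hK }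
  refine H202.EF.main (n := n) (by omega) hdet (sam_equiv L') ?_ ?_ ?_ hα' hδ'
    (e₀ := min e (1 / (8 * (n + 1)))) (T₀ := T') (lt_min he (by positivity))
    (algebraMap K ℝ) ?_
  · intro i
    by_contra hcon'
    push Not at hcon'
    have h5 := hR.card i
    have h6 : Nat.card {j // Y327.Sam L' i j} ≤ 1 := by
      rw [Nat.card_eq_fintype_card]
      refine Fintype.card_le_one_iff.2 ?_
      rintro ⟨a, ha⟩ ⟨b, hb⟩
      apply Subtype.ext
      have ha' : a = i := by
        by_contra h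
        exact hcon' a h ha
      have hb' : b = i := by
        by_contra h
        exact hcon' b h hb
      simp only
      rw [ha', hb']
    omega
  · intro α₁ δ₁ T₁ ε₁ hα₁ hδ₁ hε₁ f hf h0 g hg hgB
    obtain ⟨ε₂, hε₂, hnr⟩ := nr_of_close hdet hε₁
    refine apply_closure hn hdet hb' hrec (sam_equiv L') hR.small hα₁ hε₂ hδ₁ (T := T₁) hf ?_ hg hgB
    rintro γ ⟨hγ, a, s, ha, ha1, hs, hs2, hcl⟩
    exact h0 a γ (hnr a γ ha ha1 hγ hcl) ⟨s, hs, hs2⟩
  · obtain ⟨ε₁, hε₁, hcomm⟩ := H202.ZR.commute_all hdet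
    obtain ⟨e₁, he₁, hclose₁⟩ := close_of_nr (L := L') hε₁
    refine ⟨e₁, he₁, fun a γ hN => ?_⟩
    refine H202.ZR.block_of_commute hdet fun σ hσ => ?_
    have h1 := hcomm a γ (by rw [hN.2.2.1]; exact isUnit_one) (hclose₁ a γ hN)
      (fun i => (hN.1 i).ne') σ hσ
    have h3 := congrArg (fun X : Matrix (Fin n) (Fin n) ℚ => X.map (Rat.cast : ℚ → ℝ)) h1
    have h4 : ∀ B C : Matrix (Fin n) (Fin n) ℚ,
        (B * C).map (Rat.cast : ℚ → ℝ) = B.map (Rat.cast : ℚ → ℝ) * C.map (Rat.cast : ℚ → ℝ) := by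
      intro B C
      ext i j
      simp [Matrix.mul_apply]
    have h5 : (γ.map (Int.cast : ℤ → ℚ)).map (Rat.cast : ℚ → ℝ) = H202.EF.rR γ := by
      ext i j
      simp [H202.EF.rR]
    simp only [h4, h5] at h3
    exact h3
  · intro a γ hN hC
    have hret : γ ∈ Returns L' α ε δ T := by
      obtain ⟨s, hs, hs2⟩ := hsub a hC
      exact ⟨hN.2.2.1, a, s, hN.1, hN.2.1, hs, hs2, hclose a γ (hN.mono (min_le_left _ _))⟩
    obtain ⟨E, hE, hE2⟩ := H202.EF.Nr_frame hN
    obtain ⟨hsep, hI⟩ := hgen a hN.1 hC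
    obtain ⟨hirr, r, -, -, hr⟩ := H202.EF.rs_matrix (by omega) hdet hN.2.2.1
      (D := fun i => (a i)⁻¹) (fun i => inv_pos.2 (hN.1 i))
      (fun i j => (hE i j).le.trans (min_le_right _ _)) hE2
      (fun i j hij => by
        have hi := hN.1 i
        have hj := hN.1 j
        rcases hsep i j hij with h | h
        · right
          rw [← div_eq_mul_inv, div_le_iff₀ hj, inv_mul_eq_div, le_div_iff₀ hi]
          exact h
        · left
          rw [← div_eq_mul_inv, div_le_iff₀ hi, inv_mul_eq_div, le_div_iff₀ hj]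
          exact h)
      (fun I hI1 hI2 => by
        have h1 := hI I hI1 hI2
        have h2 : ∑ k ∈ I, Real.log (a k)⁻¹ = - ∑ k ∈ I, Real.log (a k) := by
          rw [← Finset.sum_neg_distrib]
          exact Finset.sum_congr rfl fun k _ => Real.log_inv _
        rw [h2, abs_neg]
        exact h1)
    obtain ⟨x, hxK, hx⟩ := hcon γ hret ⟨hirr, fun z hz => by
      obtain ⟨k, rfl⟩ := (hr z).1 hz
      exact Complex.ofReal_im _⟩
    exact ⟨⟨x, hxK⟩, (det_iff x).2 hx⟩

/-- a number field has finitely many subfields -/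
lemma finite_sub (K : IntermediateField ℚ ℝ) (hK : FiniteDimensional ℚ K) :
    {F : IntermediateField ℚ ℝ | F ≤ K}.Finite := by
  have h1 : Finite (IntermediateField ℚ K) :=
    (Field.exists_primitive_element_iff_finite_intermediateField ℚ K).1
      ⟨inferInstance, Field.exists_primitive_element ℚ K⟩
  refine (Set.finite_range (fun F : IntermediateField ℚ K => IntermediateField.lift F)).subset ?_
  intro F hF
  exact ⟨IntermediateField.restrict hF, IntermediateField.lift_restrict hF⟩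

/-- finitely many fields are in one number field -/
lemma exists_field {S : Set (Matrix (Fin n) (Fin n) ℤ)} (hS : (Fields S).Finite) :
    ∃ K : IntermediateField ℚ ℝ, FiniteDimensional ℚ K ∧ ∀ F ∈ Fields S, F ≤ K := by
  have h1 : Finite (Fields S) := hS
  have h2 : ∀ F : Fields S, FiniteDimensional ℚ (F : IntermediateField ℚ ℝ) := by
    rintro ⟨F, γ, -, -, x, hx, rfl⟩
    refine IntermediateField.finiteDimensional_adjoin fun y hy => ?_
    rw [Set.mem_singleton_iff.1 hy]
    exact (H202.EF.eigen_integral ((det_iff x).2 hx)).tower_top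
  refine ⟨⨆ F : Fields S, (F : IntermediateField ℚ ℝ),
    IntermediateField.finiteDimensional_iSup_of_finite, fun F hF => ?_⟩
  exact le_iSup (fun F : Fields S => (F : IntermediateField ℚ ℝ)) ⟨F, hF⟩

/-- an integral matrix whose eigenvalues are real has a real eigenvalue -/
lemma exists_real (hn : 3 ≤ n) {γ : Matrix (Fin n) (Fin n) ℤ} (h : ∀ z : ℂ, Eigenvalue γ z → z.im = 0) :
    ∃ x : ℝ, Eigenvalue γ (x : ℂ) := by
  obtain ⟨z, hz⟩ := IsAlgClosed.exists_root (γ.charpoly.map (Int.castRingHom ℂ)) (by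
    rw [Polynomial.degree_map_eq_of_injective Int.cast_injective, Matrix.charpoly_degree_eq_dim,
      Fintype.card_fin]
    intro h0
    have h1 : n = 0 := by exact_mod_cast h0
    omega)
  have hz' : Eigenvalue γ z := by
    unfold Eigenvalue
    rw [Polynomial.aeval_def, ← Polynomial.eval_map]
    exact hz
  refine ⟨z.re, ?_⟩
  have h1 : ((z.re : ℝ) : ℂ) = z := Complex.ext (by simp) (by simp [h z hz'])
  rw [h1]
  exact hz'

/-- the eigenvalues of a matrix with the eigenvectors `L i` -/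
lemma eigen_diag {L : Matrix (Fin n) (Fin n) ℝ} (hL : L.det ≠ 0)
    {γ : Matrix (Fin n) (Fin n) ℤ} {c : Fin n → ℝ}
    (hc : L * γ.map (Int.cast : ℤ → ℝ) = Matrix.diagonal c * L) {z : ℂ} (hz : Eigenvalue γ z) :
    ∃ i, z = ((c i : ℝ) : ℂ) := by
  have hLu : IsUnit L.det := isUnit_iff_ne_zero.2 hL
  have h1 : (γ.map (Int.cast : ℤ → ℝ)).charpoly = ∏ i, (Polynomial.X - Polynomial.C (c i)) := by
    have h2 : γ.map (Int.cast : ℤ → ℝ) = L⁻¹ * (Matrix.diagonal c * L) := by
      rw [← hc, ← Matrix.mul_assoc, Matrix.nonsing_inv_mul _ hLu, Matrix.one_mul]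
    rw [h2, Matrix.charpoly_mul_comm, Matrix.mul_assoc, Matrix.mul_nonsing_inv _ hLu,
      Matrix.mul_one, Matrix.charpoly_diagonal]
  have h2 : γ.charpoly.map (algebraMap ℤ ℝ) = ∏ i, (Polynomial.X - Polynomial.C (c i)) := by
    rw [← h1, ← Matrix.charpoly_map]
    rfl
  have h3 : Polynomial.aeval z γ.charpoly = Polynomial.aeval z (γ.charpoly.map (algebraMap ℤ ℝ)) :=
    (Polynomial.aeval_map_algebraMap ℝ z γ.charpoly).symm
  unfold Eigenvalue at hz
  rw [h3, h2, map_prod] at hz
  obtain ⟨i, -, hi⟩ := Finset.prod_eq_zero_iff.1 hz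
  refine ⟨i, ?_⟩
  rw [map_sub, Polynomial.aeval_X, Polynomial.aeval_C, sub_eq_zero] at hi
  exact hi

/-- proportionality to an integral form and invariant hyperplanes -/
lemma propInt_iff (hn : 3 ≤ n) {L : Matrix (Fin n) (Fin n) ℝ} (hL : L.det ≠ 0)
    (hb : BoundedBelow L) : PropInt L ↔ HasMatrix L := by
  obtain ⟨ν, hν, hF⟩ := id hb
  constructor
  · intro h
    exact Pool.Agent.H905R2.Opp.opp_of_propInt (by omega) (det_ne hL) hb h
  · rintro ⟨A, -, hA2, -, hA4⟩
    exact Y327.propInt_of_opp hn hL hν hF hA2 hA4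

/-- the fields of bounded discriminant are in one number field -/
lemma exists_field_discr (N : ℕ) : ∃ K : IntermediateField ℚ ℝ, FiniteDimensional ℚ K ∧
    ∀ (E : IntermediateField ℚ ℝ) (_ : NumberField E), |NumberField.discr E| ≤ N → E ≤ K := by
  have hS := NumberField.finite_of_discr_bdd ℝ N
  set S := {K : { F : IntermediateField ℚ ℝ // FiniteDimensional ℚ F } |
      haveI : NumberField K := @NumberField.mk _ _ inferInstance K.prop
      |NumberField.discr K| ≤ N } with hSdef
  have h1 : Finite S := hS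
  have h2 : ∀ F : S, FiniteDimensional ℚ (F.1.1 : IntermediateField ℚ ℝ) := fun F => F.1.2
  refine ⟨⨆ F : S, (F.1.1 : IntermediateField ℚ ℝ),
    IntermediateField.finiteDimensional_iSup_of_finite, fun E hE hd => ?_⟩
  have h3 : FiniteDimensional ℚ E := hE.to_finiteDimensional
  exact le_iSup (fun F : S => (F.1.1 : IntermediateField ℚ ℝ)) ⟨⟨E, h3⟩, hd⟩

/-- the discriminants of finitely many fields are bounded -/
lemma discr_bdd {T : Set (IntermediateField ℚ ℝ)} (hT : T.Finite) :
    ∃ N : ℕ, ∀ E ∈ T, ∀ _ : NumberField E, |NumberField.discr E| ≤ N := by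
  classical
  refine ⟨∑ E ∈ hT.toFinset, if h : NumberField E then (NumberField.discr E).natAbs else 0,
    fun E hE hN => ?_⟩
  have h1 : (NumberField.discr E).natAbs ≤
      ∑ E ∈ hT.toFinset, if h : NumberField E then (NumberField.discr E).natAbs else 0 := by
    have h2 := Finset.single_le_sum (f := fun E : IntermediateField ℚ ℝ =>
      if h : NumberField E then (NumberField.discr E).natAbs else 0)
      (fun _ _ => Nat.zero_le _) (hT.mem_toFinset.2 hE)
    simp only [dif_pos hN] at h2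
    exact h2
  rw [Int.abs_eq_natAbs]
  exact_mod_cast h1

/-- prime dimension: near returns irreducible over a number field -/
lemma exists_irreducible (hp : n.Prime) (hn : 3 ≤ n) {S : Set (Matrix (Fin n) (Fin n) ℤ)}
    (hS : ∀ K : IntermediateField ℚ ℝ, FiniteDimensional ℚ K →
      ∃ γ ∈ S, IrrRS γ ∧ ∀ x ∈ K, ¬ Eigenvalue γ ((x : ℝ) : ℂ))
    (K : IntermediateField ℚ ℂ) (hK : FiniteDimensional ℚ K) :
    ∃ γ ∈ S, IrrRS γ ∧ Irreducible (γ.charpoly.map (algebraMap ℤ K)) := by
  set N : IntermediateField ℚ ℂ := IntermediateField.normalClosure ℚ K ℂ with hN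
  set f : ℝ →ₐ[ℚ] ℂ := IsScalarTower.toAlgHom ℚ ℝ ℂ with hf
  set K₀ : IntermediateField ℚ ℝ := N.comap f with hK₀
  have hNfin : FiniteDimensional ℚ N := inferInstance
  have hfin : FiniteDimensional ℚ K₀ := by
    have h1 : K₀.map f ≤ N := by
      intro y hy
      obtain ⟨x, hx, rfl⟩ := hy
      exact hx
    have h2 : FiniteDimensional ℚ ↥(K₀.map f) :=
      FiniteDimensional.of_injective (IntermediateField.inclusion h1).toLinearMap
        (IntermediateField.inclusion h1).injective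
    exact (K₀.equivMap f).symm.toLinearEquiv.finiteDimensional
  obtain ⟨γ, hγ, hirr, hx⟩ := hS K₀ hfin
  obtain ⟨x, hx2⟩ := exists_real hn hirr.2
  refine ⟨γ, hγ, hirr, H202.EF.irreducible_over hp hirr.1 hx2 K fun hmem => hx x ?_ hx2⟩
  exact hmem

theorem result (n : ℕ) (hn : 3 ≤ n) :
    -- 1. the fields of the near returns of a recurrent counterexample
    (∀ L : Matrix (Fin n) (Fin n) ℝ, L.det ≠ 0 → BoundedBelow L → Recurrent L → ¬ PropInt L →
      ∀ (α : Fin n → ℝ) (ε δ T : ℝ), ∑ i, α i = 0 → 0 < ε → 0 < δ →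
        (∀ K : IntermediateField ℚ ℝ, FiniteDimensional ℚ K →
          ∃ γ ∈ Returns L α ε δ T, IrrRS γ ∧ ∀ x ∈ K, ¬ Eigenvalue γ ((x : ℝ) : ℂ)) ∧
        (∀ N : ℕ, ∃ E ∈ Fields (Returns L α ε δ T), ∃ _ : NumberField E,
          N < |NumberField.discr E|) ∧
        (n.Prime → ∀ K : IntermediateField ℚ ℂ, FiniteDimensional ℚ K →
          ∃ γ ∈ Returns L α ε δ T, IrrRS γ ∧ Irreducible (γ.charpoly.map (algebraMap ℤ K)))) ∧
    -- 2. integral forms and the fields of the near returns
    (∀ L : Matrix (Fin n) (Fin n) ℝ, L.det ≠ 0 → BoundedBelow L →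
      List.TFAE [
        PropInt L,
        ∃ L' ∈ Limits L, Recurrent L' ∧ ∃ (α : Fin n → ℝ) (ε δ T : ℝ) (K : IntermediateField ℚ ℝ),
          ∑ i, α i = 0 ∧ 0 < ε ∧ 0 < δ ∧ FiniteDimensional ℚ K ∧
          ∀ γ ∈ Returns L' α ε δ T, ∀ z : ℂ, Eigenvalue γ z → ∃ x ∈ K, z = ((x : ℝ) : ℂ),
        ∃ L' ∈ Limits L, Recurrent L' ∧ ∃ (α : Fin n → ℝ) (ε δ T : ℝ),
          ∑ i, α i = 0 ∧ 0 < ε ∧ 0 < δ ∧ (Fields (Returns L' α ε δ T)).Finite,
        ∃ L' ∈ Limits L, Recurrent L' ∧ ∃ (α : Fin n → ℝ) (ε δ T : ℝ) (N : ℕ),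
          ∑ i, α i = 0 ∧ 0 < ε ∧ 0 < δ ∧
          ∀ E ∈ Fields (Returns L' α ε δ T), ∀ _ : NumberField E, |NumberField.discr E| ≤ N,
        ∃ L' ∈ Limits L, Recurrent L' ∧ ∃ (α : Fin n → ℝ) (ε δ T : ℝ) (K : IntermediateField ℚ ℝ),
          ∑ i, α i = 0 ∧ 0 < ε ∧ 0 < δ ∧ FiniteDimensional ℚ K ∧
          ∀ γ ∈ Returns L' α ε δ T, IrrRS γ → ∃ x ∈ K, Eigenvalue γ ((x : ℝ) : ℂ)]) := by
  classical
  -- bounded discriminants
  have hdisc : ∀ {S : Set (Matrix (Fin n) (Fin n) ℤ)} {N : ℕ},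
      (∀ E ∈ Fields S, ∀ _ : NumberField E, |NumberField.discr E| ≤ N) →
      ∃ K : IntermediateField ℚ ℝ, FiniteDimensional ℚ K ∧
        ∀ γ ∈ S, IrrRS γ → ∃ x ∈ K, Eigenvalue γ ((x : ℝ) : ℂ) := by
    intro S N h
    obtain ⟨K, hK, hK2⟩ := exists_field_discr N
    refine ⟨K, hK, fun γ hγ hγ2 => ?_⟩
    obtain ⟨x, hx⟩ := exists_real hn hγ2.2
    have hfd : FiniteDimensional ℚ (IntermediateField.adjoin ℚ {x} : IntermediateField ℚ ℝ) := by
      refine IntermediateField.finiteDimensional_adjoin fun y hy => ?_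
      rw [Set.mem_singleton_iff.1 hy]
      exact (H202.EF.eigen_integral ((det_iff x).2 hx)).tower_top
    have hnf : NumberField (IntermediateField.adjoin ℚ {x} : IntermediateField ℚ ℝ) :=
      { to_charZero := inferInstance, to_finiteDimensional := hfd }
    refine ⟨x, hK2 _ hnf (h _ ⟨γ, hγ, hγ2, x, hx, rfl⟩ hnf) ?_, hx⟩
    exact IntermediateField.subset_adjoin ℚ _ (Set.mem_singleton x)
  refine ⟨?_, ?_⟩
  · intro L hL hb hrec hno α ε δ T hα hε hδ
    rw [propInt_iff hn hL hb] at hno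
    have hself : L ∈ Limits L := by
      rw [limits_eq]
      exact subset_closure (H715R2.mem_orb_self L)
    have hgood := fun (K : IntermediateField ℚ ℝ) (hK : FiniteDimensional ℚ K) =>
      exists_good_return (T := T) hn hL hb hno hself hrec hα hε hδ K hK
    refine ⟨hgood, fun N => ?_, fun hp K hK => exists_irreducible hp hn hgood K hK⟩
    by_contra hcon
    push Not at hcon
    obtain ⟨K, hK, hK2⟩ := hdisc hcon
    obtain ⟨γ, hγ, hγ2, hγ3⟩ := hgood K hK
    obtain ⟨x, hx, hx2⟩ := hK2 γ hγ hγ2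
    exact hγ3 x hx hx2
  · intro L hL hb
    rw [propInt_iff hn hL hb]
    tfae_have 1 → 2 := by
      intro h
      obtain ⟨L', hL', hrec, hM'⟩ := exists_rec hn hL hb h
      have hdet := det_limit hL hL'
      obtain ⟨K, hK, ε, hε, hε2⟩ := returns_diag hdet hM'
      refine ⟨L', hL', hrec, 0, ε, 1, 1, K, by simp, hε, one_pos, hK, fun γ hγ z hz => ?_⟩
      obtain ⟨c, hcK, hc⟩ := hε2 0 1 1 γ hγ
      obtain ⟨i, hi⟩ := eigen_diag hdet hc hz
      exact ⟨c i, hcK i, hi⟩
    tfae_have 2 → 3 := by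
      rintro ⟨L', hL', hrec, α, ε, δ, T, K, hα, hε, hδ, hK, h⟩
      refine ⟨L', hL', hrec, α, ε, δ, T, hα, hε, hδ, (finite_sub K hK).subset ?_⟩
      rintro F ⟨γ, hγ, hγ2, x, hx, rfl⟩
      obtain ⟨y, hy, hxy⟩ := h γ hγ _ hx
      have hxy' : x = y := by exact_mod_cast hxy
      show IntermediateField.adjoin ℚ {x} ≤ K
      rw [IntermediateField.adjoin_le_iff, Set.singleton_subset_iff, hxy']
      exact hy
    tfae_have 3 → 4 := by
      rintro ⟨L', hL', hrec, α, ε, δ, T, hα, hε, hδ, h⟩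
      obtain ⟨N, hN⟩ := discr_bdd h
      exact ⟨L', hL', hrec, α, ε, δ, T, N, hα, hε, hδ, hN⟩
    tfae_have 4 → 5 := by
      rintro ⟨L', hL', hrec, α, ε, δ, T, N, hα, hε, hδ, h⟩
      obtain ⟨K, hK, hK2⟩ := hdisc h
      exact ⟨L', hL', hrec, α, ε, δ, T, K, hα, hε, hδ, hK, hK2⟩
    tfae_have 5 → 1 := by
      rintro ⟨L', hL', hrec, α, ε, δ, T, K, hα, hε, hδ, hK, h⟩
      by_contra hno
      obtain ⟨γ, hγ, hγ2, hγ3⟩ := exists_good_return hn hL hb hno hL' hrec hα hε hδ K hK
      obtain ⟨x, hx, hx2⟩ := h γ hγ hγ2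
      exact hγ3 x hx hx2
    tfae_finish

end Pool.Agent.Results.MP_edeaa2_an.EigenvalueFields
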