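import Mathlib
import Pool.Agent.H202.ST.Alg
import Pool.Agent.H202.ST.Auto
import Pool.Agent.H202.ST.Const

/-! # MP_edeaa2_an: expansions of linear complexity, and algebraic factors

Let `d ≥ 3` and let `F` be the product of the linear forms given by the rows of `g`, with
`|F| ≥ ν > 0` at the nonzero integer points. An expansion of `g` along the ray of direction `α`
(`∑ α = 0`) is a sequence `V_n` in `GL_d(ℤ)` such that the matrices `diag(exp (n α)) g V_n` stay
bounded; its steps are the matrices `W_n` with `V_{n+1} = V_n W_n`.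

0. `g` has expansions along every ray.
1. Let the number of the maximal entries of `α` be prime to `d`, and let the span of the factors
   with `α_j ≥ α_i` be a space spanned by algebraic vectors, for every `i`. If the steps of some
   expansion along the ray form a word with repetitions as in the theorem of Adamczewski and Bugeaud,
   or of (at most) linear complexity, or an automatic word, then `F` is proportional to an integral
   form.
2. This holds in particular if one factor is algebraic (up to a constant), along the ray on which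
   this factor expands and the others contract at equal rates.
3. `F` is proportional to an integral form if and only if its factors are algebraic (up to constants)
   and some expansion along a ray with a single maximal entry is repetitive (of linear complexity,
   automatic).
-/

set_option autoImplicit false

open Filter Topology

namespace Pool.Agent.Results.MP_edeaa2_an.AlgebraicFactors

variable {d : ℕ}

/-- the product of the linear forms given by the rows of `h`, at an integer point -/
noncomputable def F (h : Matrix (Fin d) (Fin d) ℝ) (x : Fin d → ℤ) : ℝ :=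
  ∏ i : Fin d, ∑ j : Fin d, h i j * (x j : ℝ)

/-- the product of the linear forms is proportional to a form with integer coefficients -/
def PropInt (h : Matrix (Fin d) (Fin d) ℝ) : Prop :=
  ∃ c : ℝ, c ≠ 0 ∧ ∀ m : Fin d →₀ ℕ, ∃ z : ℤ, MvPolynomial.coeff m
    (c • (∏ i : Fin d, ∑ j : Fin d,
      MvPolynomial.C (h i j) * MvPolynomial.X j : MvPolynomial (Fin d) ℝ)) = (z : ℝ)

/-- the product of the linear forms is bounded away from zero at the nonzero integer points -/
def BoundedBelow (h : Matrix (Fin d) (Fin d) ℝ) : Prop :=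
  ∃ ν : ℝ, 0 < ν ∧ ∀ x : Fin d → ℤ, x ≠ 0 → ν ≤ |F h x|

/-- The matrices `V n` form an expansion of `g` along the ray of direction `α`, with the steps
`W n`. -/
def IsExpansion (g : Matrix (Fin d) (Fin d) ℝ) (α : Fin d → ℝ)
    (V W : ℕ → Matrix (Fin d) (Fin d) ℤ) : Prop :=
  (∀ n, |(V n).det| = 1) ∧ (∀ n, V (n + 1) = V n * W n) ∧
    ∃ R : ℝ, ∀ (n : ℕ) i j, |(Matrix.diagonal (fun i => Real.exp (n * α i)) * g *
      (V n).map (Int.cast : ℤ → ℝ)) i j| ≤ R

/-- the span of the rows of `g` with index in `J` is spanned by vectors with algebraic coordinates -/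
def AlgebraicSpan (g : Matrix (Fin d) (Fin d) ℝ) (J : Set (Fin d)) : Prop :=
  ∃ T : Set (Fin d → ℝ), (∀ v ∈ T, ∀ j, IsAlgebraic ℚ (v j)) ∧
    Submodule.span ℝ T = Submodule.span ℝ ((fun j => g j) '' J)

/-- the factor with index `i` is proportional to a form with algebraic coefficients -/
def AlgebraicFactor (g : Matrix (Fin d) (Fin d) ℝ) (i : Fin d) : Prop :=
  ∃ c : ℝ, c ≠ 0 ∧ ∀ j, IsAlgebraic ℚ (c * g i j)

/-- The word `s` has arbitrarily long blocks, of length `N`, which occur at two different places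
`m < n` with `n ≤ C N`, for some constant `C`. -/
def Repetitive {A : Type} (s : ℕ → A) : Prop :=
  ∃ C : ℕ, ∀ N₀ : ℕ, ∃ N, N₀ ≤ N ∧ ∃ m n, m < n ∧ n ≤ C * N ∧ ∀ k < N, s (m + k) = s (n + k)

/-- The word `s` has at most `C N` blocks of length `N` for infinitely many `N`, for some
constant `C`. -/
def LinearComplexity {A : Type} (s : ℕ → A) : Prop :=
  ∃ C : ℕ, ∀ N₀ : ℕ, ∃ N, N₀ ≤ N ∧
    (Set.range fun n => fun k : Fin N => s (n + k)).encard ≤ ((C * N : ℕ) : ℕ∞)

/-- The word `s` is `k`-automatic for some `k ≥ 2`: it has a finite `k`-kernel. -/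
def Automatic {A : Type} (s : ℕ → A) : Prop :=
  ∃ k : ℕ, 2 ≤ k ∧ {u : ℕ → A | ∃ r j, j < k ^ r ∧ ∀ n, u n = s (k ^ r * n + j)}.Finite

lemma rep_of {A : Type} {s : ℕ → A} (h : Repetitive s ∨ LinearComplexity s ∨ Automatic s) :
    Pool.Agent.H202.ST.Repetitive s := by
  rcases h with h | ⟨C, h⟩ | ⟨k, hk, h⟩
  · exact h
  · exact Pool.Agent.H202.ST.repetitive_of_linear h
  · obtain ⟨C, hC⟩ := Pool.Agent.H202.ST.linear_of_automatic hk h
    exact Pool.Agent.H202.ST.repetitive_of_linear hC

lemma not_inf {g : Matrix (Fin d) (Fin d) ℝ} (hbd : BoundedBelow g) :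
    ¬ Pool.Agent.Q64.IF.Inf0 g := by
  obtain ⟨ν, hν, hnu⟩ := hbd
  intro h0
  obtain ⟨x, hx, hx2⟩ := h0 ν hν
  exact absurd (hnu x hx) (not_le.2 hx2)

lemma exists_expansion (hd : 3 ≤ d) {g : Matrix (Fin d) (Fin d) ℝ} (hg : g.det ≠ 0)
    (hbd : BoundedBelow g) {α : Fin d → ℝ} (hα : ∑ i, α i = 0) :
    ∃ V W, IsExpansion g α V W := by
  obtain ⟨ν, hν, hnu⟩ := hbd
  obtain ⟨R, hR⟩ := H715R2.exists_bound (by omega : 0 < d) |g.det| ν (abs_pos.2 hg) hν
  have hprod : ∀ n : ℕ, ∏ i, Real.exp (n * α i) = 1 := by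
    intro n
    rw [← Real.exp_sum, ← Finset.mul_sum, hα, mul_zero, Real.exp_zero]
  have h1 : ∀ n : ℕ, ∃ γ : Matrix (Fin d) (Fin d) ℤ, IsUnit γ.det ∧ ∀ i j,
      |(Matrix.diagonal (fun i => Real.exp (n * α i)) * g * H715R2.zR γ) i j| ≤ R := by
    intro n
    refine hR _ ?_ ?_
    · rw [Matrix.det_mul, Matrix.det_diagonal, hprod, one_mul]
    · intro m hm
      rw [H715R2.FF_diag_mul, hprod, one_mul]
      exact hnu m hm
  choose V hV hVR using h1
  refine ⟨V, fun n => (V n)⁻¹ * V (n + 1), fun n => Int.isUnit_iff_abs_eq.1 (hV n), fun n => ?_,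
    R, hVR⟩
  rw [← Matrix.mul_assoc, Matrix.mul_nonsing_inv _ (hV n), Matrix.one_mul]

lemma algPts_of_span {g : Matrix (Fin d) (Fin d) ℝ} {J : Set (Fin d)} (h : AlgebraicSpan g J) :
    Submodule.span ℝ ((fun j => g j) '' J) ≤
      Submodule.span ℝ (Pool.Agent.H202.ST.algPts (Submodule.span ℝ ((fun j => g j) '' J))) := by
  obtain ⟨T, hT, hT2⟩ := h
  conv_lhs => rw [← hT2]
  refine Submodule.span_mono fun v hv => ⟨?_, hT v hv⟩
  rw [← hT2]
  exact Submodule.subset_span hv

/-- part 1 -/
lemma part1 (hd : 3 ≤ d) {g : Matrix (Fin d) (Fin d) ℝ} (hg : g.det ≠ 0) (hbd : BoundedBelow g)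
    {α : Fin d → ℝ} {V W : ℕ → Matrix (Fin d) (Fin d) ℤ} (hα : ∑ i, α i = 0)
    (hα0 : ∃ i, α i ≠ 0)
    (hco : Nat.Coprime (Finset.univ.filter fun i => ∀ j, α j ≤ α i).card d)
    (halg : ∀ i, AlgebraicSpan g {j | α i ≤ α j}) (hexp : IsExpansion g α V W)
    (hrep : Repetitive W ∨ LinearComplexity W ∨ Automatic W) : PropInt g := by
  obtain ⟨M, hM, hMalg, hMT⟩ := Pool.Agent.H202.ST.exists_flag hg (α := α)
    fun i => algPts_of_span (halg i)
  obtain ⟨hV, hW, R, hR⟩ := hexp
  refine Pool.Agent.H202.ST.main hd hg (not_inf hbd) hα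
    (I := Finset.univ.filter fun i => ∀ j, α j ≤ α i) (fun i => by simp) ?_ hco hM hMalg hMT
    (fun n => Int.isUnit_iff_abs_eq.2 (hV n)) (C := R) (fun n i j => hR n i j) hW (rep_of hrep)
  intro hI
  obtain ⟨i, hi⟩ := hα0
  have h1 : ∀ i j, α j ≤ α i := by
    intro i
    have := Finset.mem_univ i
    rw [← hI, Finset.mem_filter] at this
    exact this.2
  have h2 : ∀ j, α j = α i := fun j => le_antisymm (h1 i j) (h1 j i)
  rw [Finset.sum_congr rfl fun j _ => h2 j, Finset.sum_const, Finset.card_univ,
    Fintype.card_fin, nsmul_eq_mul] at hα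
  rcases mul_eq_zero.1 hα with h3 | h3
  · have : d = 0 := by exact_mod_cast h3
    omega
  · exact hi h3

lemma span_single {g : Matrix (Fin d) (Fin d) ℝ} {i : Fin d} (h : AlgebraicFactor g i) :
    AlgebraicSpan g {i} := by
  obtain ⟨c, hc, h⟩ := h
  refine ⟨{fun j => c * g i j}, ?_, ?_⟩
  · rintro v rfl
    exact h
  · rw [Set.image_singleton]
    exact Submodule.span_singleton_smul_eq (isUnit_iff_ne_zero.2 hc) (g i)

lemma span_univ {g : Matrix (Fin d) (Fin d) ℝ} (hg : g.det ≠ 0) : AlgebraicSpan g Set.univ := by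
  refine ⟨Set.range fun i : Fin d => Pi.single i 1, ?_, ?_⟩
  · rintro _ ⟨i, rfl⟩ j
    simp only
    rcases eq_or_ne j i with rfl | h
    · rw [Pi.single_eq_same]
      exact isAlgebraic_one
    · rw [Pi.single_eq_of_ne h]
      exact isAlgebraic_zero
  · have h1 : Submodule.span ℝ (Set.range fun i : Fin d => (Pi.single i 1 : Fin d → ℝ)) = ⊤ := by
      have h3 := (Pi.basisFun ℝ (Fin d)).span_eq
      have h4 : (fun i : Fin d => (Pi.single i 1 : Fin d → ℝ)) = ⇑(Pi.basisFun ℝ (Fin d)) := by
        funext i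
        rw [Pi.basisFun_apply]
      rw [h4]
      exact h3
    have h2 : LinearIndependent ℝ (fun i => g i) :=
      Matrix.linearIndependent_rows_of_det_ne_zero hg
    rw [h1, Set.image_univ]
    exact (h2.span_eq_top_of_card_eq_finrank' (by simp)).symm

lemma span_of_factors {g : Matrix (Fin d) (Fin d) ℝ} {J : Set (Fin d)}
    (h : ∀ i ∈ J, AlgebraicFactor g i) : AlgebraicSpan g J := by
  classical
  choose! c hc hc2 using h
  refine ⟨(fun i => c i • g i) '' J, ?_, ?_⟩
  · rintro _ ⟨i, hi, rfl⟩ j
    exact hc2 i hi j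
  · refine le_antisymm (Submodule.span_le.2 ?_) (Submodule.span_le.2 ?_)
    · rintro _ ⟨i, hi, rfl⟩
      exact Submodule.smul_mem _ _ (Submodule.subset_span ⟨i, hi, rfl⟩)
    · rintro _ ⟨i, hi, rfl⟩
      have h1 : g i = (c i)⁻¹ • (c i • g i) := by
        rw [smul_smul, inv_mul_cancel₀ (hc i hi), one_smul]
      simp only
      rw [SetLike.mem_coe, h1]
      exact Submodule.smul_mem _ _ (Submodule.subset_span ⟨i, hi, rfl⟩)

/-- integral forms have constant expansions -/
lemma exists_constant (hd : 3 ≤ d) {g : Matrix (Fin d) (Fin d) ℝ} (hg : g.det ≠ 0)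
    (hbd : BoundedBelow g) (hP : PropInt g) :
    (∀ i, AlgebraicFactor g i) ∧ ∃ (α : Fin d → ℝ) (V W : ℕ → Matrix (Fin d) (Fin d) ℤ),
      ∑ i, α i = 0 ∧ (∃ i, ∀ j, j ≠ i → α j < α i) ∧ IsExpansion g α V W ∧
      (∀ n, W n = W 0) := by
  classical
  obtain ⟨ν, hν, hnu⟩ := hbd
  refine ⟨fun i => Pool.Agent.H202.ST.rows_alg hd hg hν hnu hP i, ?_⟩
  obtain ⟨β, W, hβ, hβ1, hW, hfix, i, hi1, hi2⟩ :=
    Pool.Agent.H202.ST.exists_const hd hg hν hnu hP
  refine ⟨fun k => Real.log (β k), fun n => W ^ n, fun _ => W, ?_, ⟨i, fun j hj => ?_⟩,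
    ⟨fun n => ?_, fun n => pow_succ W n, ∑ i, ∑ j, |g i j|, fun n i j => ?_⟩, fun _ => rfl⟩
  · rw [← Real.log_prod (fun k _ => (hβ k).ne'), hβ1, Real.log_one]
  · exact Real.log_lt_log (hβ j) ((hi2 j hj).trans hi1)
  · rw [Matrix.det_pow, abs_pow, Int.isUnit_iff_abs_eq.1 hW, one_pow]
  · have h1 : ∀ n : ℕ, Matrix.diagonal (fun i => Real.exp (n * Real.log (β i))) * g *
        (W ^ n).map (Int.cast : ℤ → ℝ) = g := by
      intro n
      induction n with
      | zero =>
        have : (W ^ 0).map (Int.cast : ℤ → ℝ) = 1 := by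
          rw [pow_zero]
          ext i j
          rw [Matrix.map_apply, Matrix.one_apply, Matrix.one_apply]
          split_ifs <;> simp
        rw [this, Matrix.mul_one]
        simp
      | succ n ih =>
        have e1 : (W ^ (n + 1)).map (Int.cast : ℤ → ℝ) =
            W.map (Int.cast : ℤ → ℝ) * (W ^ n).map (Int.cast : ℤ → ℝ) := by
          rw [pow_succ']
          exact Matrix.map_mul_intCast W (W ^ n)
        have e2 : Matrix.diagonal (fun i => Real.exp (((n + 1 : ℕ) : ℝ) * Real.log (β i))) =
            Matrix.diagonal (fun i => Real.exp (n * Real.log (β i))) * Matrix.diagonal β := by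
          rw [Matrix.diagonal_mul_diagonal]
          congr 1
          funext k
          push_cast
          rw [add_mul, one_mul, Real.exp_add, Real.exp_log (hβ k)]
        rw [e1, e2]
        calc _ = Matrix.diagonal (fun i => Real.exp (n * Real.log (β i))) *
              (Matrix.diagonal β * g * W.map (Int.cast : ℤ → ℝ)) *
              (W ^ n).map (Int.cast : ℤ → ℝ) := by simp only [Matrix.mul_assoc]
          _ = _ := by rw [hfix, ih]
    rw [h1]
    refine le_trans ?_ (Finset.single_le_sum (f := fun i => ∑ j, |g i j|)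
      (fun _ _ => Finset.sum_nonneg fun _ _ => abs_nonneg _) (Finset.mem_univ i))
    exact Finset.single_le_sum (f := fun j => |g i j|) (fun _ _ => abs_nonneg _)
      (Finset.mem_univ j)

lemma const_classes {A : Type} {s : ℕ → A} (h : ∀ n, s n = s 0) :
    Repetitive s ∧ LinearComplexity s ∧ Automatic s := by
  refine ⟨⟨1, fun N₀ => ⟨N₀ + 1, by omega, 0, 1, one_pos, by omega, fun k _ => ?_⟩⟩,
    ⟨1, fun N₀ => ⟨N₀ + 1, by omega, ?_⟩⟩, ⟨2, le_rfl, ?_⟩⟩
  · rw [h (0 + k), h (1 + k)]
  · have h1 : (Set.range fun n => fun k : Fin (N₀ + 1) => s (n + k)) ⊆ {fun _ => s 0} := by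
      rintro _ ⟨n, rfl⟩
      rw [Set.mem_singleton_iff]
      funext k
      exact h _
    refine (Set.encard_le_encard h1).trans ?_
    rw [Set.encard_singleton, one_mul]
    exact_mod_cast (by omega : 1 ≤ N₀ + 1)
  · refine (Set.finite_singleton fun _ => s 0).subset ?_
    rintro u ⟨r, j, -, hu⟩
    rw [Set.mem_singleton_iff]
    funext n
    rw [hu]
    exact h _

theorem result (d : ℕ) (hd : 3 ≤ d) (g : Matrix (Fin d) (Fin d) ℝ) (hg : g.det ≠ 0)
    (hbd : BoundedBelow g) :
    -- 0. expansions exist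
    (∀ α : Fin d → ℝ, ∑ i, α i = 0 → ∃ V W, IsExpansion g α V W) ∧
    -- 1. a flag of algebraic spaces
    (∀ (α : Fin d → ℝ) (V W : ℕ → Matrix (Fin d) (Fin d) ℤ), ∑ i, α i = 0 → (∃ i, α i ≠ 0) →
      Nat.Coprime (Finset.univ.filter fun i => ∀ j, α j ≤ α i).card d →
      (∀ i, AlgebraicSpan g {j | α i ≤ α j}) → IsExpansion g α V W →
      Repetitive W ∨ LinearComplexity W ∨ Automatic W → PropInt g) ∧
    -- 2. one algebraic factor
    (∀ (i : Fin d) (r : ℝ) (V W : ℕ → Matrix (Fin d) (Fin d) ℤ), 0 < r → AlgebraicFactor g i →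
      IsExpansion g (fun j => if j = i then (d - 1) * r else -r) V W →
      Repetitive W ∨ LinearComplexity W ∨ Automatic W → PropInt g) ∧
    -- 3. a characterization of the integral forms
    (∀ P : (ℕ → Matrix (Fin d) (Fin d) ℤ) → Prop,
      P = Repetitive ∨ P = LinearComplexity ∨ P = Automatic →
      (PropInt g ↔ (∀ i, AlgebraicFactor g i) ∧
        ∃ (α : Fin d → ℝ) (V W : ℕ → Matrix (Fin d) (Fin d) ℤ), ∑ i, α i = 0 ∧
          (∃ i, ∀ j, j ≠ i → α j < α i) ∧ IsExpansion g α V W ∧ P W)) := by
  classical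
  refine ⟨fun α hα => exists_expansion hd hg hbd hα,
    fun α V W hα hα0 hco halg hexp hrep => part1 hd hg hbd hα hα0 hco halg hexp hrep,
    fun i r V W hr halg hexp hrep => ?_, fun P hP => ⟨fun hg2 => ?_, ?_⟩⟩
  · have hd1 : (3 : ℝ) ≤ d := by exact_mod_cast hd
    have hlt : -r < (d - 1) * r := by nlinarith
    refine part1 hd hg hbd ?_ ⟨i, ?_⟩ ?_ (fun k => ?_) hexp hrep
    · rw [← Finset.add_sum_erase _ _ (Finset.mem_univ i), if_pos rfl,
        Finset.sum_congr rfl (g := fun _ => -r) (fun j hj => if_neg (Finset.ne_of_mem_erase hj)),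
        Finset.sum_const, Finset.card_erase_of_mem (Finset.mem_univ i), Finset.card_univ,
        Fintype.card_fin, nsmul_eq_mul, Nat.cast_sub (by omega), Nat.cast_one]
      ring
    · rw [if_pos rfl]
      nlinarith
    · have h1 : (Finset.univ.filter fun k : Fin d => ∀ j : Fin d,
          (if j = i then ((d : ℝ) - 1) * r else -r) ≤ if k = i then ((d : ℝ) - 1) * r else -r) =
          {i} := by
        ext k
        rw [Finset.mem_filter, Finset.mem_singleton]
        constructor
        · rintro ⟨-, hk⟩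
          by_contra hne
          have := hk i
          rw [if_pos rfl, if_neg hne] at this
          linarith
        · rintro rfl
          refine ⟨Finset.mem_univ _, fun j => ?_⟩
          rw [if_pos rfl]
          split_ifs
          · exact le_rfl
          · exact hlt.le
      rw [h1, Finset.card_singleton]
      exact Nat.coprime_one_left d
    · rcases eq_or_ne k i with rfl | hk
      · have h1 : {j : Fin d | (if k = k then ((d : ℝ) - 1) * r else -r) ≤
            if j = k then ((d : ℝ) - 1) * r else -r} = {k} := by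
          ext j
          rw [Set.mem_ofPred_eq, Set.mem_singleton_iff, if_pos rfl]
          constructor
          · intro hj
            by_contra hne
            rw [if_neg hne] at hj
            linarith
          · rintro rfl
            rw [if_pos rfl]
        rw [h1]
        exact span_single halg
      · have h1 : {j : Fin d | (if k = i then ((d : ℝ) - 1) * r else -r) ≤
            if j = i then ((d : ℝ) - 1) * r else -r} = Set.univ := by
          ext j
          rw [Set.mem_ofPred_eq, if_neg hk]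
          refine ⟨fun _ => Set.mem_univ _, fun _ => ?_⟩
          split_ifs
          · exact hlt.le
          · exact le_rfl
        rw [h1]
        exact span_univ hg
  · obtain ⟨h1, α, V, W, h2, h3, h4, h5⟩ := exists_constant hd hg hbd hg2
    obtain ⟨h6, h7, h8⟩ := const_classes h5
    refine ⟨h1, α, V, W, h2, h3, h4, ?_⟩
    rcases hP with rfl | rfl | rfl
    · exact h6
    · exact h7
    · exact h8
  · rintro ⟨h1, α, V, W, hα, ⟨i, hi⟩, hexp, hPW⟩
    refine part1 hd hg hbd hα ?_ ?_ (fun k => span_of_factors fun j _ => h1 j) hexp ?_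
    · by_contra hcon
      push Not at hcon
      obtain ⟨j, hj⟩ : ∃ j : Fin d, j ≠ i := by
        have : Nontrivial (Fin d) := Fin.nontrivial_iff_two_le.2 (by omega)
        exact exists_ne i
      have := hi j hj
      rw [hcon, hcon] at this
      exact lt_irrefl _ this
    · have h2 : (Finset.univ.filter fun k : Fin d => ∀ j : Fin d, α j ≤ α k) = {i} := by
        ext k
        rw [Finset.mem_filter, Finset.mem_singleton]
        constructor
        · rintro ⟨-, hk⟩
          by_contra hne
          exact absurd (hk i) (not_le.2 (hi k hne))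
        · rintro rfl
          refine ⟨Finset.mem_univ _, fun j => ?_⟩
          rcases eq_or_ne j k with rfl | hj
          · exact le_rfl
          · exact (hi j hj).le
      rw [h2, Finset.card_singleton]
      exact Nat.coprime_one_left d
    · rcases hP with rfl | rfl | rfl
      · exact Or.inl hPW
      · exact Or.inr (Or.inl hPW)
      · exact Or.inr (Or.inr hPW)

end Pool.Agent.Results.MP_edeaa2_an.AlgebraicFactors
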