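import Mathlib
import Pool.Agent.H202.Path2
import Pool.Graph.R_seed8.Y327.Root

/-! # MP_edeaa2_an: the complexity of expansions along paths in the diagonal group

Let `d ≥ 3` and let `F` be the product of the linear forms given by the rows of `g`, with
`|F| ≥ ν > 0` at the nonzero integer points. An expansion of `g` is a sequence of steps
`(b_n, W_n)`, `b_n` positive of product one and `W_n` in `GL_d(ℤ)`, such that the matrices `h_n`
with `h_0 = g`, `h_{n+1} = diag(b_n) h_n W_n` remain bounded (a walk with bounded steps along any path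
in the diagonal group, with reduced bases). The sequence of the steps is an infinite word.

1. `F` is proportional to an integral form if and only if some expansion of `g` contains arbitrarily
   high powers of some finite word such that one entry of the product of its vectors `b` is larger
   than the others.
2. `F` is proportional to an integral form if and only if some expansion of `g`, along a path on
   which one entry dominates the others, has at most `N` blocks of length `N` for some `N`.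
3. If `d` is prime, it is enough in 1 that the product of the vectors `b` of the word is not `1`, and
   in 2 that the path is unbounded.

So in every expansion of a counterexample to the conjecture of Cassels and Swinnerton-Dyer along a
path with a dominating entry (for prime `d`: along an unbounded path) there are at least `N + 1`
blocks of length `N` for every `N`, and the powers of every word as in 1 are bounded. -/

set_option autoImplicit false

open Filter Topology

namespace Pool.Agent.Results.MP_edeaa2_an.PathComplexity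

variable {d : ℕ}

/-- the product of the linear forms given by the rows of `h`, at an integer point -/
noncomputable def F (h : Matrix (Fin d) (Fin d) ℝ) (x : Fin d → ℤ) : ℝ :=
  ∏ i : Fin d, ∑ j : Fin d, h i j * (x j : ℝ)

/-- the product of the linear forms is proportional to a form with integer coefficients -/
def PropInt (h : Matrix (Fin d) (Fin d) ℝ) : Prop :=
  ∃ c : ℝ, c ≠ 0 ∧ ∀ m : Fin d →₀ ℕ, ∃ z : ℤ, MvPolynomial.coeff m
    (c • (∏ i : Fin d, ∑ j : Fin d,
      MvPolynomial.C (h i j) * MvPolynomial.X j : MvPolynomial (Fin d) ℝ)) = (z : ℝ)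

/-- the product of the linear forms is bounded away from zero at the nonzero integer points -/
def BoundedBelow (h : Matrix (Fin d) (Fin d) ℝ) : Prop :=
  ∃ ν : ℝ, 0 < ν ∧ ∀ x : Fin d → ℤ, x ≠ 0 → ν ≤ |F h x|

/-- the matrices of the expansion of `g` with the steps `s` -/
noncomputable def point (g : Matrix (Fin d) (Fin d) ℝ)
    (s : ℕ → (Fin d → ℝ) × Matrix (Fin d) (Fin d) ℤ) : ℕ → Matrix (Fin d) (Fin d) ℝ
  | 0 => g
  | n + 1 => Matrix.diagonal (s n).1 * point g s n * (s n).2.map (Int.cast : ℤ → ℝ)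

/-- the steps `s` give an expansion of `g`: the steps are admissible and the matrices bounded -/
def IsExpansion (g : Matrix (Fin d) (Fin d) ℝ)
    (s : ℕ → (Fin d → ℝ) × Matrix (Fin d) (Fin d) ℤ) : Prop :=
  (∀ n i, 0 < (s n).1 i) ∧ (∀ n, ∏ i, (s n).1 i = 1) ∧ (∀ n, |(s n).2.det| = 1) ∧
    ∃ R : ℝ, ∀ n i j, |point g s n i j| ≤ R

/-- the position of the path after `n` steps -/
noncomputable def position (s : ℕ → (Fin d → ℝ) × Matrix (Fin d) (Fin d) ℤ) (n : ℕ) (i : Fin d) :
    ℝ :=
  ∏ m ∈ Finset.range n, (s m).1 i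

/-- The word `s` contains arbitrarily high powers of the word `u 0, …, u (P - 1)`. -/
def ContainsPowers {α : Type} (s u : ℕ → α) (P : ℕ) : Prop :=
  0 < P ∧ (∀ m, u (m + P) = u m) ∧ ∀ k, ∃ n, ∀ m < k, s (n + m) = u m

/-- The word `s` has at most `N` blocks of length `N`, for some `N`. -/
def LowComplexity {α : Type} (s : ℕ → α) : Prop :=
  ∃ N : ℕ, (Set.range fun n => fun k : Fin N => s (n + k)).encard ≤ N

lemma point_eq (g : Matrix (Fin d) (Fin d) ℝ)
    (s : ℕ → (Fin d → ℝ) × Matrix (Fin d) (Fin d) ℤ) (n : ℕ) :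
    point g s n = Pool.Agent.H202.Path.pt g (fun n => (s n).1) (fun n => (s n).2) n := by
  induction n with
  | zero => rfl
  | succ n ih =>
    rw [point, ih]
    rfl

lemma position_eq (s : ℕ → (Fin d → ℝ) × Matrix (Fin d) (Fin d) ℤ) (n : ℕ) (i : Fin d) :
    position s n i = Pool.Agent.H202.Path.bp (fun n => (s n).1) 0 n i := by
  unfold position Pool.Agent.H202.Path.bp
  simp only [zero_add]

/-- the main direction -/
lemma of_powers (hd : 3 ≤ d) {g : Matrix (Fin d) (Fin d) ℝ} (hg : g.det ≠ 0)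
    (hbd : BoundedBelow g) {s u : ℕ → (Fin d → ℝ) × Matrix (Fin d) (Fin d) ℤ}
    (hs : IsExpansion g s) {P : ℕ} (hu : ContainsPowers s u P)
    (hB : (∃ i, ∀ j, j ≠ i → ∏ m ∈ Finset.range P, (u m).1 j < ∏ m ∈ Finset.range P, (u m).1 i) ∨
      (d.Prime ∧ ∃ i, ∏ m ∈ Finset.range P, (u m).1 i ≠ 1)) : PropInt g := by
  obtain ⟨hs1, hs2, hs3, R, hR⟩ := hs
  obtain ⟨hP, hper, hpow⟩ := hu
  have hum : ∀ m, ∃ n, u m = s n := by
    intro m
    obtain ⟨n, hn⟩ := hpow (m + 1)
    exact ⟨n + m, (hn m (by omega)).symm⟩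
  have hu1 : ∀ n i, 0 < (u n).1 i := by
    intro n i
    obtain ⟨k, hk⟩ := hum n
    rw [hk]
    exact hs1 k i
  have hu2 : ∀ n, ∏ i, (u n).1 i = 1 := by
    intro n
    obtain ⟨k, hk⟩ := hum n
    rw [hk]
    exact hs2 k
  have hu3 : ∀ n, IsUnit (u n).2.det := by
    intro n
    obtain ⟨k, hk⟩ := hum n
    rw [hk]
    exact Int.isUnit_iff_abs_eq.2 (hs3 k)
  obtain ⟨h, hh, hbound⟩ := Pool.Agent.H202.Path.exists_limit_word (g := g)
    (b := fun n => (s n).1) (W := fun n => (s n).2) hs1 hs2
    (fun n => Int.isUnit_iff_abs_eq.2 (hs3 n)) (R := R)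
    (fun n i j => by rw [← point_eq]; exact hR n i j) (c := fun n => (u n).1)
    (V := fun n => (u n).2) (P := P) (fun k => by rw [hper]) (fun k => by rw [hper]) hu1
    (fun k => by
      obtain ⟨n, hn⟩ := hpow k
      exact ⟨n, fun m hm => ⟨by rw [hn m hm], by rw [hn m hm]⟩⟩)
  have hbp : ∀ i, Pool.Agent.H202.Path.bp (fun n => (u n).1) 0 P i =
      ∏ m ∈ Finset.range P, (u m).1 i := by
    intro i
    unfold Pool.Agent.H202.Path.bp
    simp only [zero_add]
  have hpos := Pool.Agent.H202.Path.bp_pos hu1 0 P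
  have hprod := Pool.Agent.H202.Path.bp_prod hu2 0 P
  have hdet := Pool.Agent.H202.Path.Wp_det hu3 0 P
  have hinf : ¬ Pool.Agent.Q64.IF.Inf0 g := by
    obtain ⟨ν, hν, hnu⟩ := hbd
    intro h0
    obtain ⟨x, hx, hx2⟩ := h0 ν hν
    exact absurd (hnu x hx) (not_le.2 hx2)
  rcases hB with ⟨i, hi⟩ | ⟨hp, i, hi⟩
  · refine (Pool.Agent.H202.Path.main_row hd hg hh hpos hprod hdet hbound (i₀ := i)
      fun j hj => ?_).resolve_left hinf
    rw [hbp, hbp]
    exact hi j hj
  · exact (Pool.Agent.H202.Path.main_prime hd hp hg hh hpos hprod hdet hbound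
      ⟨i, by rw [hbp]; exact hi⟩).resolve_left hinf

/-- words of low complexity contain powers -/
lemma powers_of_low {g : Matrix (Fin d) (Fin d) ℝ}
    {s : ℕ → (Fin d → ℝ) × Matrix (Fin d) (Fin d) ℤ} (hs : IsExpansion g s)
    (hlow : LowComplexity s) : ∃ (n₀ P : ℕ) (u : ℕ → (Fin d → ℝ) × Matrix (Fin d) (Fin d) ℤ),
      ContainsPowers s u P ∧ ∀ n, n₀ ≤ n → ∀ i, position s (n + P) i =
        position s n i * ∏ m ∈ Finset.range P, (u m).1 i := by
  obtain ⟨N, hN⟩ := hlow
  obtain ⟨n₀, P, hP, hper⟩ := Pool.Agent.H202.Path.morse_hedlund s N hN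
  refine ⟨n₀, P, fun m => s (n₀ + m), ⟨hP, fun m => ?_, fun k => ⟨n₀, fun m _ => rfl⟩⟩, ?_⟩
  · have := hper (n₀ + m) (by omega)
    simp only
    rw [← add_assoc]
    exact this
  · intro n hn i
    have h1 : position s (n + P) i = position s n i *
        Pool.Agent.H202.Path.bp (fun n => (s n).1) n P i := by
      unfold position Pool.Agent.H202.Path.bp
      rw [Finset.prod_range_add]
    rw [h1, Pool.Agent.H202.Path.bp_shift (b := fun n => (s n).1) hs.1 (n₀ := n₀) (P := P)
      (fun k hk => by rw [hper k hk]) hn]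
    rfl

/-- integral forms have constant expansions -/
lemma exists_constant (hd : 3 ≤ d) {g : Matrix (Fin d) (Fin d) ℝ} (hg : g.det ≠ 0)
    (hbd : BoundedBelow g) (hP : PropInt g) :
    ∃ (β : Fin d → ℝ) (W : Matrix (Fin d) (Fin d) ℤ), IsExpansion g (fun _ => (β, W)) ∧
      ∃ i, 1 < β i ∧ ∀ j, j ≠ i → β j < 1 := by
  classical
  obtain ⟨ν, hν, hnu⟩ := hbd
  obtain ⟨K, _, D, t, B, c, hbij, hreal, hBc, hBdet, hgB⟩ :=
    Y327.dat_of_propInt hd hg hν hnu hP
  have hd0 : 0 < d := by omega
  set i₀ : Fin d := ⟨0, hd0⟩ with hi₀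
  obtain ⟨u, hu⟩ := NumberField.Units.dirichletUnitTheorem.exists_unit K
    (NumberField.InfinitePlace.mk (t i₀))
  obtain ⟨γ, hγ, hγB, hγ1⟩ := Y327.unit_act D t hbij hreal B hBc hBdet u
  have hlg : ∀ j, j ≠ i₀ → H715R2.lg D.N (t j) u < 0 := by
    intro j hj
    have h1 : NumberField.InfinitePlace.mk (t j) ≠ NumberField.InfinitePlace.mk (t i₀) := by
      intro h0
      rw [NumberField.InfinitePlace.mk_eq_iff] at h0
      rcases h0 with h0 | h0
      · exact hj (hbij.1 h0)
      · rw [(NumberField.ComplexEmbedding.isReal_iff.1 (hreal (t j)))] at h0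
        exact hj (hbij.1 h0)
    have h2 := hu _ h1
    rw [NumberField.InfinitePlace.apply] at h2
    unfold H715R2.lg H715R2.uu
    push_cast
    rw [map_pow, norm_pow, Real.log_pow]
    have h3 : (0 : ℝ) < D.N := by exact_mod_cast D.hN
    exact mul_neg_of_pos_of_neg h3 h2
  set β : Fin d → ℝ := fun k => Real.exp (H715R2.lg D.N (t k) u) with hβ
  -- the inverse step
  have hβ1 : ∏ k, β k = 1 := hγ1
  have hβpos : ∀ k, 0 < β k := fun k => Real.exp_pos _
  have hβj : ∀ j, j ≠ i₀ → β j < 1 := fun j hj => by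
    rw [hβ]
    simp only
    rw [Real.exp_lt_one_iff]
    exact hlg j hj
  have hβi : 1 < β i₀ := by
    rw [← Finset.mul_prod_erase Finset.univ _ (Finset.mem_univ i₀)] at hβ1
    have h1 : ∏ j ∈ Finset.univ.erase i₀, β j < 1 := by
      have h2 : (⟨1, by omega⟩ : Fin d) ∈ Finset.univ.erase i₀ := by
        rw [Finset.mem_erase]
        refine ⟨?_, Finset.mem_univ _⟩
        intro h0
        rw [hi₀, Fin.mk.injEq] at h0
        omega
      rw [← Finset.mul_prod_erase _ _ h2]
      have h3 : ∏ j ∈ (Finset.univ.erase i₀).erase ⟨1, by omega⟩, β j ≤ 1 :=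
        Finset.prod_le_one (fun j _ => (hβpos j).le) fun j hj =>
          (hβj j (Finset.ne_of_mem_erase (Finset.mem_of_mem_erase hj))).le
      have h4 : 0 < ∏ j ∈ (Finset.univ.erase i₀).erase ⟨1, by omega⟩, β j :=
        Finset.prod_pos fun j _ => hβpos j
      have h5 := hβj ⟨1, by omega⟩ (Finset.ne_of_mem_erase h2)
      have h6 := hβpos ⟨1, by omega⟩
      nlinarith
    have h2 : 0 < ∏ j ∈ Finset.univ.erase i₀, β j := Finset.prod_pos fun j _ => hβpos j
    have h3 := hβpos i₀
    by_contra hcon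
    rw [not_lt] at hcon
    nlinarith
  have hinv : IsUnit (γ⁻¹ : Matrix (Fin d) (Fin d) ℤ).det := by
    rw [Matrix.det_nonsing_inv]
    exact hγ.ringInverse
  -- `diag(β) g γ⁻¹ = g`
  have hfix : Matrix.diagonal β * g * (γ⁻¹).map (Int.cast : ℤ → ℝ) = g := by
    have h1 : Matrix.diagonal β * g = g * H715R2.zR γ := by
      have h2 : Matrix.diagonal β * Matrix.diagonal c = Matrix.diagonal c * Matrix.diagonal β := by
        rw [Matrix.diagonal_mul_diagonal, Matrix.diagonal_mul_diagonal]
        congr 1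
        funext k
        exact mul_comm _ _
      rw [hgB, ← Matrix.mul_assoc, h2, Matrix.mul_assoc, Matrix.mul_assoc, hγB]
    rw [h1, Matrix.mul_assoc]
    have h2 : H715R2.zR γ * (γ⁻¹).map (Int.cast : ℤ → ℝ) = 1 := H715R2.zR_inv hγ
    rw [h2, Matrix.mul_one]
  refine ⟨β, γ⁻¹, ⟨fun _ => hβpos, fun _ => hβ1, fun _ => Int.isUnit_iff_abs_eq.1 hinv,
    ∑ i, ∑ j, |g i j|, fun n i j => ?_⟩, i₀, hβi, hβj⟩
  have h1 : ∀ n, point g (fun _ => (β, γ⁻¹)) n = g := by
    intro n
    induction n with
    | zero => rfl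
    | succ n ih =>
      rw [point, ih]
      exact hfix
  rw [h1]
  refine le_trans ?_ (Finset.single_le_sum (f := fun i => ∑ j, |g i j|)
    (fun _ _ => Finset.sum_nonneg fun _ _ => abs_nonneg _) (Finset.mem_univ i))
  exact Finset.single_le_sum (f := fun j => |g i j|) (fun _ _ => abs_nonneg _)
    (Finset.mem_univ j)

theorem result (d : ℕ) (hd : 3 ≤ d) (g : Matrix (Fin d) (Fin d) ℝ) (hg : g.det ≠ 0)
    (hbd : BoundedBelow g) :
    -- 1. powers of a word
    (PropInt g ↔ ∃ s u P, IsExpansion g s ∧ ContainsPowers s u P ∧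
      ∃ i, ∀ j, j ≠ i → ∏ m ∈ Finset.range P, (u m).1 j < ∏ m ∈ Finset.range P, (u m).1 i) ∧
    -- 2. blocks
    (PropInt g ↔ ∃ s, IsExpansion g s ∧ LowComplexity s ∧
      ∃ i, ∀ j, j ≠ i → Tendsto (fun n => position s n i / position s n j) atTop atTop) ∧
    -- 3. prime dimension
    (d.Prime →
      (PropInt g ↔ ∃ s u P, IsExpansion g s ∧ ContainsPowers s u P ∧
        ∃ i, ∏ m ∈ Finset.range P, (u m).1 i ≠ 1) ∧
      (PropInt g ↔ ∃ s, IsExpansion g s ∧ LowComplexity s ∧
        ¬ ∃ R, ∀ n i, position s n i ≤ R)) := by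
  classical
  have hconst : PropInt g → ∃ (β : Fin d → ℝ) (W : Matrix (Fin d) (Fin d) ℤ),
      IsExpansion g (fun _ => (β, W)) ∧ ContainsPowers (fun _ => (β, W)) (fun _ => (β, W)) 1 ∧
      LowComplexity (fun _ => (β, W)) ∧ ∃ i, 1 < β i ∧ ∀ j, j ≠ i → β j < 1 := by
    intro hP
    obtain ⟨β, W, hs, hi⟩ := exists_constant hd hg hbd hP
    refine ⟨β, W, hs, ⟨one_pos, fun _ => rfl, fun _ => ⟨0, fun _ _ => rfl⟩⟩, ⟨1, ?_⟩, hi⟩
    have h1 : (Set.range fun _ : ℕ => fun _ : Fin 1 => (β, W)) = {fun _ => (β, W)} :=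
      Set.range_const
    rw [h1, Set.encard_singleton]
    rfl
  have hposc : ∀ (β : Fin d → ℝ) (W : Matrix (Fin d) (Fin d) ℤ) (n : ℕ) (i : Fin d),
      position (fun _ => (β, W)) n i = β i ^ n := by
    intro β W n i
    unfold position
    rw [Finset.prod_const, Finset.card_range]
  refine ⟨⟨fun hP => ?_, ?_⟩, ⟨fun hP => ?_, ?_⟩, fun hp => ⟨⟨fun hP => ?_, ?_⟩,
    ⟨fun hP => ?_, ?_⟩⟩⟩
  · obtain ⟨β, W, hs, hpw, -, i, hi1, hi2⟩ := hconst hP
    refine ⟨_, _, 1, hs, hpw, i, fun j hj => ?_⟩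
    simp only [Finset.prod_range_one]
    exact (hi2 j hj).trans hi1
  · rintro ⟨s, u, P, hs, hu, hi⟩
    exact of_powers hd hg hbd hs hu (Or.inl hi)
  · obtain ⟨β, W, hs, -, hlow, i, hi1, hi2⟩ := hconst hP
    refine ⟨_, hs, hlow, i, fun j hj => ?_⟩
    simp only [hposc, ← div_pow]
    refine tendsto_pow_atTop_atTop_of_one_lt ?_
    rw [one_lt_div (hs.1 0 j)]
    exact (hi2 j hj).trans hi1
  · rintro ⟨s, hs, hlow, i, hi⟩
    obtain ⟨n₀, P, u, hu, hpos⟩ := powers_of_low hs hlow
    refine of_powers hd hg hbd hs hu (Or.inl ⟨i, fun j hj => ?_⟩)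
    set Bi := ∏ m ∈ Finset.range P, (u m).1 i with hBi
    set Bj := ∏ m ∈ Finset.range P, (u m).1 j with hBj
    have hpospos : ∀ n k, 0 < position s n k := fun n k => Finset.prod_pos fun m _ => hs.1 m k
    have hB : ∀ k, 0 < ∏ m ∈ Finset.range P, (u m).1 k := by
      intro k
      have h1 := hpos n₀ le_rfl k
      have h2 := hpospos (n₀ + P) k
      rw [h1] at h2
      exact (pos_iff_pos_of_mul_pos h2).1 (hpospos n₀ k)
    by_contra hcon
    rw [not_lt] at hcon
    have h1 : ∀ k : ℕ, position s (n₀ + k * P) i / position s (n₀ + k * P) j ≤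
        position s n₀ i / position s n₀ j := by
      intro k
      induction k with
      | zero => rw [zero_mul, add_zero]
      | succ k ih =>
        refine le_trans ?_ ih
        rw [show n₀ + (k + 1) * P = n₀ + k * P + P by ring,
          hpos _ (by omega) i, hpos _ (by omega) j, div_le_div_iff₀
          (mul_pos (hpospos _ j) (hB j)) (hpospos _ j)]
        have h2 := mul_pos (hpospos (n₀ + k * P) i) (hpospos (n₀ + k * P) j)
        nlinarith
    have h2 : Tendsto (fun k : ℕ => n₀ + k * P) atTop atTop := by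
      refine tendsto_atTop_mono (fun k => ?_) tendsto_id
      have := Nat.mul_le_mul_left k (show 1 ≤ P from hu.1)
      simp only [id]
      omega
    have h3 := (hi j hj).comp h2
    obtain ⟨k, hk⟩ := (h3.eventually_gt_atTop (position s n₀ i / position s n₀ j)).exists
    exact absurd (h1 k) (not_le.2 hk)
  · obtain ⟨β, W, hs, hpw, -, i, hi1, hi2⟩ := hconst hP
    refine ⟨_, _, 1, hs, hpw, i, ?_⟩
    simp only [Finset.prod_range_one]
    exact hi1.ne'
  · rintro ⟨s, u, P, hs, hu, hi⟩
    exact of_powers hd hg hbd hs hu (Or.inr ⟨hp, hi⟩)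
  · obtain ⟨β, W, hs, -, hlow, i, hi1, hi2⟩ := hconst hP
    refine ⟨_, hs, hlow, ?_⟩
    rintro ⟨R, hR⟩
    obtain ⟨k, hk⟩ := pow_unbounded_of_one_lt R hi1
    have h1 := hR k i
    rw [hposc] at h1
    exact absurd h1 (not_le.2 hk)
  · rintro ⟨s, hs, hlow, hunb⟩
    obtain ⟨n₀, P, u, hu, hpos⟩ := powers_of_low hs hlow
    refine of_powers hd hg hbd hs hu (Or.inr ⟨hp, ?_⟩)
    by_contra hcon
    push Not at hcon
    refine hunb ⟨∑ m ∈ Finset.range (n₀ + P), ∑ i, position s m i, fun n i => ?_⟩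
    have hpospos : ∀ n k, 0 < position s n k := fun n k => Finset.prod_pos fun m _ => hs.1 m k
    induction n using Nat.strong_induction_on with
    | _ n ih =>
      by_cases hn : n < n₀ + P
      · refine le_trans ?_ (Finset.single_le_sum (f := fun m => ∑ i, position s m i)
          (fun m _ => Finset.sum_nonneg fun k _ => (hpospos m k).le) (Finset.mem_range.2 hn))
        exact Finset.single_le_sum (f := fun i => position s n i)
          (fun k _ => (hpospos n k).le) (Finset.mem_univ i)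
      · have hP := hu.1
        have h1 := hpos (n - P) (by omega) i
        rw [hcon i, mul_one, Nat.sub_add_cancel (by omega)] at h1
        rw [h1]
        exact ih (n - P) (by omega)

end Pool.Agent.Results.MP_edeaa2_an.PathComplexity
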