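import Mathlib
import Pool.Graph.R_pool_sql_team_seeded_3997aac3.Q64.IF.Fin
import Pool.Agent.H202.UnitDiag
import Pool.Agent.H202.SG.Group

/-! # MP_edeaa2_an: the rational similarities of a product of linear forms

Let `d ≥ 3` and let `F` be the product of the linear forms `l_1, …, l_d` given by the rows of `g`,
with `|F| ≥ ν > 0` at the nonzero integer points. A similarity of `F` is a nonsingular rational
matrix `σ` with `F(σ x) = c F(x)` for some constant `c`; it permutes the linear forms up to factors.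
The rational matrices which multiply every `l_i` by a number form a field `K`, of degree `k`
dividing `d`; it is known that `k = d` if and only if `F` is proportional to an integral form. Let `Γ`
be the group of the permutations of the linear forms induced by the similarities (the group of the
similarities modulo the nonzero elements of `K`), and let `2^v` be the exact power of `2` dividing
`d / k`.

1. The stabilizer in `Γ` of every linear form is an abelian `2`-group whose order divides `d / k`.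
2. The order of `Γ` divides `2^v d`. If `d / k` is odd, no nontrivial element of `Γ` fixes a linear
   form, and the order of `Γ` divides `d`.
3. `F` is proportional to an integral form if and only if some limit of `g` has a similarity `σ` such
   that the minimal polynomial of `σ^(2^w d)` has degree `d`, where `2^w` is the exact power of `2`
   dividing `d`. -/

set_option autoImplicit false

open Matrix Module

namespace Pool.Agent.Results.MP_edeaa2_an.SimilarityGroups

variable {d : ℕ}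

/-- the product of the linear forms given by the rows of `h`, at a real point -/
noncomputable def F (h : Matrix (Fin d) (Fin d) ℝ) (x : Fin d → ℝ) : ℝ :=
  ∏ i : Fin d, ∑ j : Fin d, h i j * x j

/-- the product of the linear forms is proportional to a form with integer coefficients -/
def PropInt (h : Matrix (Fin d) (Fin d) ℝ) : Prop :=
  ∃ c : ℝ, c ≠ 0 ∧ ∀ m : Fin d →₀ ℕ, ∃ z : ℤ, MvPolynomial.coeff m
    (c • (∏ i : Fin d, ∑ j : Fin d,
      MvPolynomial.C (h i j) * MvPolynomial.X j : MvPolynomial (Fin d) ℝ)) = (z : ℝ)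

/-- the product of the linear forms is bounded away from zero at the nonzero integer points -/
def BoundedBelow (h : Matrix (Fin d) (Fin d) ℝ) : Prop :=
  ∃ ν : ℝ, 0 < ν ∧ ∀ x : Fin d → ℤ, x ≠ 0 → ν ≤ |F h (fun j => (x j : ℝ))|

/-- the rational matrix `σ` as a real matrix -/
def real (σ : Matrix (Fin d) (Fin d) ℚ) : Matrix (Fin d) (Fin d) ℝ := σ.map (Rat.cast : ℚ → ℝ)

/-- `σ` is a similarity of the product of the linear forms given by the rows of `h`. -/
def Similarity (h : Matrix (Fin d) (Fin d) ℝ) (σ : Matrix (Fin d) (Fin d) ℚ) : Prop :=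
  σ.det ≠ 0 ∧ ∃ c : ℝ, ∀ x : Fin d → ℝ, F h (real σ *ᵥ x) = c * F h x

/-- `σ` maps the linear form number `i` to a multiple of the linear form number `π i`, for all `i`. -/
def Induces (h : Matrix (Fin d) (Fin d) ℝ) (σ : Matrix (Fin d) (Fin d) ℚ)
    (π : Equiv.Perm (Fin d)) : Prop :=
  ∀ i, ∃ c : ℝ, h i ᵥ* real σ = c • h (π i)

/-- the closure of the set of the matrices `diag(a) g γ` with `a` positive of product one and `γ`
integral of determinant `±1` -/
def Limits (g : Matrix (Fin d) (Fin d) ℝ) : Set (Matrix (Fin d) (Fin d) ℝ) :=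
  closure {h | ∃ (a : Fin d → ℝ) (γ : Matrix (Fin d) (Fin d) ℤ), (∀ i, 0 < a i) ∧
    ∏ i, a i = 1 ∧ |γ.det| = 1 ∧ h = Matrix.diagonal a * g * γ.map (Int.cast : ℤ → ℝ)}

lemma real_eq (σ : Matrix (Fin d) (Fin d) ℚ) : real σ = Pool.Agent.Q64.IF.rQ d σ := by
  ext i j
  rw [Pool.Agent.Q64.IF.rQ_apply]
  rfl

lemma real_mul (σ τ : Matrix (Fin d) (Fin d) ℚ) : real (σ * τ) = real σ * real τ := by
  rw [real_eq, real_eq, real_eq, map_mul]

lemma real_one : real (1 : Matrix (Fin d) (Fin d) ℚ) = 1 := by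
  rw [real_eq, map_one]

lemma real_pow (σ : Matrix (Fin d) (Fin d) ℚ) (k : ℕ) : real (σ ^ k) = real σ ^ k := by
  rw [real_eq, real_eq, map_pow]

lemma real_det (σ : Matrix (Fin d) (Fin d) ℚ) : (real σ).det = (σ.det : ℝ) := by
  have h1 := RingHom.map_det (Rat.castHom ℝ) σ
  rw [Rat.coe_castHom] at h1
  rw [h1]
  rfl

/-- a matrix preserving the product of the coordinates up to a factor is monomial -/
lemma monomial_of_prod {G : Matrix (Fin d) (Fin d) ℝ} (hG : G.det ≠ 0) {c : ℝ}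
    (h : ∀ y : Fin d → ℝ, ∏ i, (G *ᵥ y) i = c * ∏ i, y i) (i : Fin d) :
    ∃ j, G i j ≠ 0 ∧ ∀ k, k ≠ j → G i k = 0 := by
  classical
  have hu : IsUnit G.det := isUnit_iff_ne_zero.2 hG
  -- a nonzero entry
  obtain ⟨j, hj⟩ : ∃ j, G i j ≠ 0 := by
    by_contra hcon
    push Not at hcon
    exact hG (Matrix.det_eq_zero_of_row_eq_zero i hcon)
  refine ⟨j, hj, fun k hk => ?_⟩
  by_contra hGk
  -- a vector with nonzero coordinates in the kernel of the row
  set S : ℝ := ∑ l ∈ (Finset.univ.erase j).erase k, G i l with hS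
  obtain ⟨t, ht0, ht⟩ : ∃ t : ℝ, t ≠ 0 ∧ G i k * t + S ≠ 0 := by
    by_cases h1 : G i k * 1 + S = 0
    · refine ⟨2, by norm_num, fun h2 => hGk ?_⟩
      linarith
    · exact ⟨1, one_ne_zero, h1⟩
  set y : Fin d → ℝ := fun l => if l = j then -(G i k * t + S) / G i j else
    if l = k then t else 1 with hy
  have hyj : y j = -(G i k * t + S) / G i j := by simp [hy]
  have hyk : y k = t := by simp [hy, hk]
  have hyne : ∀ l, y l ≠ 0 := by
    intro l
    simp only [hy]
    split_ifs with h1 h2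
    · exact div_ne_zero (neg_ne_zero.2 ht) hj
    · exact ht0
    · exact one_ne_zero
  have hrow : (G *ᵥ y) i = 0 := by
    have h1 : (G *ᵥ y) i = ∑ l, G i l * y l := rfl
    rw [h1, ← Finset.add_sum_erase Finset.univ _ (Finset.mem_univ j),
      ← Finset.add_sum_erase (Finset.univ.erase j) _
        (Finset.mem_erase.2 ⟨hk, Finset.mem_univ k⟩), hyj, hyk]
    have h2 : ∑ l ∈ (Finset.univ.erase j).erase k, G i l * y l = S := by
      refine Finset.sum_congr rfl fun l hl => ?_
      have h3 : l ≠ k := Finset.ne_of_mem_erase hl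
      have h4 : l ≠ j := Finset.ne_of_mem_erase (Finset.mem_of_mem_erase hl)
      simp only [hy, if_neg h4, if_neg h3, mul_one]
    rw [h2]
    field_simp
    ring
  have hc : c ≠ 0 := by
    intro hc
    have h1 := h (G⁻¹ *ᵥ fun _ => 1)
    rw [mulVec_mulVec, mul_nonsing_inv _ hu, one_mulVec, hc, zero_mul] at h1
    simp at h1
  have h1 := h y
  rw [Finset.prod_eq_zero (Finset.mem_univ i) hrow] at h1
  exact mul_ne_zero hc (Finset.prod_ne_zero_iff.2 fun l _ => hyne l) h1.symm

/-- a similarity permutes the linear forms up to factors -/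
lemma exists_perm {g : Matrix (Fin d) (Fin d) ℝ} (hg : g.det ≠ 0)
    {σ : Matrix (Fin d) (Fin d) ℚ} (hσ : Similarity g σ) :
    ∃ (π : Fin d → Fin d) (b : Fin d → ℝ), (∀ i, b i ≠ 0) ∧
      ∀ i, g i ᵥ* real σ = b i • g (π i) := by
  obtain ⟨hdet, c, hc⟩ := hσ
  have hu : IsUnit g.det := isUnit_iff_ne_zero.2 hg
  have hGdet : (g * real σ * g⁻¹).det ≠ 0 := by
    rw [det_mul, det_mul, real_det, det_nonsing_inv, Ring.inverse_eq_inv']
    exact mul_ne_zero (mul_ne_zero hg (by exact_mod_cast hdet)) (inv_ne_zero hg)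
  have hprod : ∀ y : Fin d → ℝ, ∏ i, ((g * real σ * g⁻¹) *ᵥ y) i = c * ∏ i, y i := by
    intro y
    have h1 := hc (g⁻¹ *ᵥ y)
    have h2 : ∀ x, F g x = ∏ i, (g *ᵥ x) i := fun x => rfl
    rw [h2, h2, mulVec_mulVec, mulVec_mulVec, mulVec_mulVec, mul_nonsing_inv _ hu,
      one_mulVec] at h1
    exact h1
  choose π hπ1 hπ2 using monomial_of_prod hGdet hprod
  refine ⟨π, fun i => (g * real σ * g⁻¹) i (π i), hπ1, fun i => ?_⟩
  have h1 : g i ᵥ* real σ = ((g * real σ * g⁻¹) * g) i := by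
    rw [Matrix.mul_assoc _ g⁻¹, nonsing_inv_mul _ hu, Matrix.mul_one]
    rfl
  rw [h1]
  funext l
  rw [Matrix.mul_apply, Finset.sum_eq_single (π i)]
  · rfl
  · intro j _ hj
    rw [hπ2 i j hj, zero_mul]
  · intro h0
    exact absurd (Finset.mem_univ _) h0


/-- the rational matrices which multiply every linear form by a number -/
def K (h : Matrix (Fin d) (Fin d) ℝ) : Subalgebra ℚ (Matrix (Fin d) (Fin d) ℚ) where
  carrier := {σ | ∀ i, ∃ c : ℝ, h i ᵥ* real σ = c • h i}
  mul_mem' := by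
    intro σ τ hσ hτ i
    obtain ⟨a, ha⟩ := hσ i
    obtain ⟨b, hb⟩ := hτ i
    exact ⟨a * b, by rw [real_mul, ← vecMul_vecMul, ha, smul_vecMul, hb, smul_smul]⟩
  add_mem' := by
    intro σ τ hσ hτ i
    obtain ⟨a, ha⟩ := hσ i
    obtain ⟨b, hb⟩ := hτ i
    exact ⟨a + b, by rw [real_eq, map_add, ← real_eq, ← real_eq, vecMul_add, ha, hb, add_smul]⟩
  algebraMap_mem' := by
    intro q i
    exact ⟨q, by rw [real_eq, Pool.Agent.H202.SG.rQ_algebraMap, vecMul_smul, vecMul_one]⟩

open Pool.Agent.H202.SG in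
lemma mem_K {h : Matrix (Fin d) (Fin d) ℝ} {σ : Matrix (Fin d) (Fin d) ℚ} :
    σ ∈ K h ↔ Diag h σ := by
  constructor
  · intro hσ i
    obtain ⟨c, hc⟩ := hσ i
    exact ⟨c, by rw [← real_eq]; exact hc⟩
  · intro hσ i
    obtain ⟨c, hc⟩ := hσ i
    exact ⟨c, by rw [real_eq]; exact hc⟩

/-- a form which is bounded below does not vanish at rational points -/
lemma aniso {g : Matrix (Fin d) (Fin d) ℝ} (hbd : BoundedBelow g) :
    Pool.Agent.H202.SG.Aniso g := by
  classical
  intro v hv i h0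
  obtain ⟨ν, hν, hF⟩ := hbd
  set N : ℕ := ∏ j, (v j).den with hN
  have hN0 : (N : ℝ) ≠ 0 := by
    have : N ≠ 0 := Finset.prod_ne_zero_iff.2 fun j _ => (v j).den_nz
    exact_mod_cast this
  have hint : ∀ j, ∃ m : ℤ, (m : ℝ) = N * (v j : ℝ) := by
    intro j
    refine ⟨(v j).num * ∏ k ∈ Finset.univ.erase j, ((v k).den : ℤ), ?_⟩
    have h1 : (N : ℝ) = ((v j).den : ℝ) * ∏ k ∈ Finset.univ.erase j, ((v k).den : ℝ) := by
      rw [hN, Nat.cast_prod, Finset.mul_prod_erase Finset.univ (fun k => ((v k).den : ℝ))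
        (Finset.mem_univ j)]
    have h2 : (v j : ℝ) = ((v j).num : ℝ) / ((v j).den : ℝ) := by
      conv_lhs => rw [← Rat.num_div_den (v j)]
      push_cast
      rfl
    have h3 : ((v j).den : ℝ) ≠ 0 := by exact_mod_cast (v j).den_nz
    rw [h1, h2]
    push_cast
    field_simp
  choose m hm using hint
  have hm0 : m ≠ 0 := by
    intro h
    apply hv
    funext j
    have h1 := hm j
    rw [h] at h1
    simp only [Pi.zero_apply, Int.cast_zero] at h1
    have h2 := (mul_eq_zero.1 h1.symm).resolve_left hN0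
    exact_mod_cast h2
  have h1 := hF m hm0
  have h2 : F g (fun j => (m j : ℝ)) = 0 := by
    refine Finset.prod_eq_zero (Finset.mem_univ i) ?_
    have h3 : ∑ j, g i j * (m j : ℝ) = N * (g i ⬝ᵥ fun j => (v j : ℝ)) := by
      rw [dotProduct, Finset.mul_sum]
      refine Finset.sum_congr rfl fun j _ => ?_
      rw [hm]
      ring
    rw [h3, h0, mul_zero]
  rw [h2, abs_zero] at h1
  exact absurd h1 (not_le.2 hν)

open Pool.Agent.H202.SG in
/-- similarities are monomial -/
lemma exists_mono {g : Matrix (Fin d) (Fin d) ℝ} (hg : g.det ≠ 0)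
    {σ : Matrix (Fin d) (Fin d) ℚ} (hσ : Similarity g σ) :
    ∃ π : Equiv.Perm (Fin d), Mono g σ π := by
  obtain ⟨π, b, hb, hπ⟩ := exists_perm hg hσ
  have hπinj : Function.Injective π := by
    intro i j hij
    have hdet : IsUnit (real σ).det := by
      rw [real_det, isUnit_iff_ne_zero]
      exact_mod_cast hσ.1
    have h1 : ((b j) • g i) ᵥ* real σ = ((b i) • g j) ᵥ* real σ := by
      rw [smul_vecMul, smul_vecMul, hπ, hπ, hij, smul_smul, smul_smul, mul_comm]
    have h2 := congrArg (fun v : Fin d → ℝ => v ᵥ* (real σ)⁻¹) h1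
    simp only [vecMul_vecMul, mul_nonsing_inv _ hdet, vecMul_one] at h2
    exact row_inj hg (hb j) h2
  refine ⟨Equiv.ofBijective π (Finite.injective_iff_bijective.1 hπinj), hσ.1, fun k => ?_⟩
  exact ⟨b k, hb k, by rw [← real_eq]; exact hπ k⟩

open Pool.Agent.H202.SG in
/-- monomial matrices are similarities -/
lemma similarity_of_mono {g : Matrix (Fin d) (Fin d) ℝ} {σ : Matrix (Fin d) (Fin d) ℚ}
    {π : Equiv.Perm (Fin d)} (h : Mono g σ π) : Similarity g σ ∧ Induces g σ π := by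
  refine ⟨⟨h.1, ?_⟩, fun i => ?_⟩
  · choose b hb hb2 using h.2
    refine ⟨∏ i, b i, fun x => ?_⟩
    have h1 : ∀ (u : Fin d → ℝ) (x : Fin d → ℝ), ∑ j, u j * x j = u ⬝ᵥ x := fun u x => rfl
    unfold F
    simp only [h1]
    have h2 : ∀ i, g i ⬝ᵥ (real σ *ᵥ x) = b i * (g (π i) ⬝ᵥ x) := by
      intro i
      rw [dotProduct_mulVec, real_eq, hb2, smul_dotProduct, smul_eq_mul]
    simp only [h2, Finset.prod_mul_distrib]
    rw [Equiv.prod_comp π (fun i => g i ⬝ᵥ x)]
  · obtain ⟨b, -, hb⟩ := h.2 i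
    exact ⟨b, by rw [real_eq]; exact hb⟩

open Pool.Agent.H202.SG in
lemma mono_of_induces {g : Matrix (Fin d) (Fin d) ℝ} (hA : Aniso g)
    {σ : Matrix (Fin d) (Fin d) ℚ} (hσ : Similarity g σ) {π : Equiv.Perm (Fin d)}
    (h : Induces g σ π) : Mono g σ π := by
  refine ⟨hσ.1, fun k => ?_⟩
  obtain ⟨c, hc⟩ := h k
  rw [real_eq] at hc
  refine ⟨c, ?_, hc⟩
  intro hc0
  rw [hc0, zero_smul] at hc
  have h1 := eq_zero_of_row hA hc
  have : Nonempty (Fin d) := ⟨k⟩
  have h2 := hσ.1
  rw [h1, det_zero] at h2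
  exact h2 rfl

open Pool.Agent.H202.SG in
/-- the degree of the field of symmetries -/
lemma finrank_K {g : Matrix (Fin d) (Fin d) ℝ} (hA : Aniso g) (i : Fin d) :
    finrank ℚ (K g) = finrank ℚ (fieldK hA i) := by
  let e : fieldK hA i →ₗ[ℚ] K g :=
    { toFun := fun x => ⟨chi hA i x, mem_K.2 x.2⟩
      map_add' := by
        intro x y
        apply Subtype.ext
        exact map_add (chi hA i) _ _
      map_smul' := by
        intro q x
        apply Subtype.ext
        exact map_smul (chi hA i) _ _ }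
  have hinj : Function.Injective e := by
    intro x y h
    have h1 := congrArg Subtype.val h
    exact Subtype.ext (chi_injective hA i h1)
  have hsurj : Function.Surjective e := by
    rintro ⟨σ, hσ⟩
    obtain ⟨c, hc⟩ := (mem_K.1 hσ) i
    have h1 : chi hA i ⟨c, σ, hc⟩ = σ := chi_eq hA i ⟨c, σ, hc⟩ hc
    refine ⟨⟨⟨c, σ, hc⟩, ?_⟩, Subtype.ext h1⟩
    rw [mem_fieldK, h1]
    exact mem_K.1 hσ
  exact (LinearEquiv.ofBijective e ⟨hinj, hsurj⟩).finrank_eq.symm

open Pool.Agent.H202.SG in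
lemma card_cls' {g : Matrix (Fin d) (Fin d) ℝ} (hg : g.det ≠ 0) (hA : Aniso g) (i : Fin d) :
    (cls hA i).card = d / finrank ℚ (K g) := by
  have h1 := card_cls hg hA i
  have h2 : 0 < finrank ℚ (fieldK hA i) := finrank_pos
  rw [finrank_K hA i]
  exact Nat.eq_div_of_mul_eq_left h2.ne' h1

open Pool.Agent.H202.SG in
/-- powers of similarities -/
lemma pow_mem {g : Matrix (Fin d) (Fin d) ℝ} (hd : 0 < d) (hg : g.det ≠ 0) (hA : Aniso g)
    {σ : Matrix (Fin d) (Fin d) ℚ} (hσ : Similarity g σ) :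
    σ ^ (2 ^ padicValNat 2 (d / finrank ℚ (K g)) * d) ∈ K g := by
  obtain ⟨π, hπ⟩ := exists_mono hg hσ
  have hm : d / finrank ℚ (K g) ≠ 0 := by
    rw [← card_cls' hg hA ⟨0, hd⟩]
    exact (Finset.card_pos.2 ⟨_, self_mem_cls hA _⟩).ne'
  have h1 := card_perms hg hA hm fun i => card_cls' hg hA i
  set q : perms g := ⟨π, σ, hπ⟩ with hq
  have h2 : q ^ (2 ^ padicValNat 2 (d / finrank ℚ (K g)) * d) = 1 :=
    orderOf_dvd_iff_pow_eq_one.1 ((orderOf_dvd_natCard q).trans h1)
  have h3 := congrArg (fun z : perms g => (z : Equiv.Perm (Fin d))) h2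
  have h4 : π ^ (2 ^ padicValNat 2 (d / finrank ℚ (K g)) * d) = 1 := by
    simpa using h3
  have h5 := hπ.pow (2 ^ padicValNat 2 (d / finrank ℚ (K g)) * d)
  rw [h4] at h5
  exact mem_K.2 h5.diag

lemma limits_closure {g h : Matrix (Fin d) (Fin d) ℝ} (hh : h ∈ Limits g) :
    h ∈ closure (H715R2.Orb g) := by
  refine closure_mono ?_ hh
  rintro M ⟨a, γ, ha, ha1, hγ, hM⟩
  exact ⟨a, γ, ha, ha1, Int.isUnit_iff_abs_eq.2 hγ, hM⟩

open Pool.Agent.H202.SG in
/-- an integral form has a similarity all powers of which have degree `d` -/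
lemma exists_unit {g : Matrix (Fin d) (Fin d) ℝ} (hd : 3 ≤ d) (hg : g.det ≠ 0)
    (hbd : BoundedBelow g) (hP : PropInt g) :
    ∃ σ : Matrix (Fin d) (Fin d) ℚ, Similarity g σ ∧
      ∀ n : ℕ, n ≠ 0 → σ ^ n ∈ K g ∧ (minpoly ℚ (σ ^ n)).natDegree = d := by
  classical
  have hA := aniso hbd
  obtain ⟨ν, hν, hF⟩ := hbd
  obtain ⟨β, γ, hγ, hγg, hβ1, hβpos, i, hi1, hi2⟩ :=
    Pool.Agent.H202.exists_unit_diag hd hg hν hF hP
  set σ : Matrix (Fin d) (Fin d) ℚ := γ.map (Int.cast : ℤ → ℚ) with hσ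
  have hσR : real σ = H715R2.zR γ := by
    ext a b
    simp [real, hσ, H715R2.zR]
  have hσdet : σ.det ≠ 0 := by
    have h1 : (σ.det : ℝ) = (γ.det : ℝ) := by
      rw [← real_det, hσR, H715R2.det_zR]
    intro h0
    rw [h0, Rat.cast_zero] at h1
    have h2 := H715R2.abs_det_of_isUnit hγ
    rw [← h1, abs_zero] at h2
    exact zero_ne_one h2
  refine ⟨σ, ⟨hσdet, 1, fun x => ?_⟩, fun n hn0 => ?_⟩
  · have h2 : ∀ x, F g x = ∏ i, (g *ᵥ x) i := fun x => rfl
    rw [h2, h2, mulVec_mulVec, hσR, hγg, ← mulVec_mulVec]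
    simp only [mulVec_diagonal]
    rw [Finset.prod_mul_distrib, hβ1]
  · have hrow : ∀ (k : Fin d) (m : ℕ),
        g k ᵥ* Pool.Agent.Q64.IF.rQ d (σ ^ m) = (β k) ^ m • g k := by
      intro k m
      induction m with
      | zero => rw [pow_zero, pow_zero, map_one, vecMul_one, one_smul]
      | succ m ih =>
        rw [pow_succ, map_mul, ← vecMul_vecMul, ih, smul_vecMul, ← real_eq, hσR]
        have h3 : g k ᵥ* H715R2.zR γ = β k • g k := by
          have h4 := congrFun hγg k
          have h5 : (g * H715R2.zR γ) k = g k ᵥ* H715R2.zR γ := rfl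
          rw [← h5, h4]
          funext l
          rw [diagonal_mul]
          rfl
        rw [h3, smul_smul, pow_succ]
    refine ⟨mem_K.2 fun k => ⟨_, hrow k n⟩, ?_⟩
    set c : fieldE hA i := ⟨β i ^ n, σ ^ n, hrow i n⟩ with hc
    have hchi : chi hA i c = σ ^ n := chi_eq hA i c (hrow i n)
    have hcint : IsIntegral ℚ c := Algebra.IsIntegral.isIntegral c
    rw [← hchi, minpoly.algHom_eq (chi hA i) (chi_injective hA i) c]
    have h6 : finrank ℚ (IntermediateField.adjoin ℚ {c}) = (minpoly ℚ c).natDegree :=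
      IntermediateField.adjoin.finrank hcint
    rw [← h6]
    have h7 := finrank_eig (d := d) ((chi hA i).comp (IntermediateField.adjoin ℚ {c}).val)
      (((fieldE hA i).val.comp (IntermediateField.adjoin ℚ {c}).val :
        IntermediateField.adjoin ℚ {c} →ₐ[ℚ] ℝ) : IntermediateField.adjoin ℚ {c} →+* ℝ)
    have h8 : finrank ℝ (eig ((chi hA i).comp (IntermediateField.adjoin ℚ {c}).val)
      (((fieldE hA i).val.comp (IntermediateField.adjoin ℚ {c}).val :
        IntermediateField.adjoin ℚ {c} →ₐ[ℚ] ℝ) :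
          IntermediateField.adjoin ℚ {c} →+* ℝ)) ≤ 1 := by
      have h9 : eig ((chi hA i).comp (IntermediateField.adjoin ℚ {c}).val)
        (((fieldE hA i).val.comp (IntermediateField.adjoin ℚ {c}).val :
          IntermediateField.adjoin ℚ {c} →ₐ[ℚ] ℝ) :
            IntermediateField.adjoin ℚ {c} →+* ℝ) ≤ Submodule.span ℝ {g i} := by
        intro l hl
        have h10 : l ᵥ* Pool.Agent.Q64.IF.rQ d (chi hA i c) = (c : ℝ) • l :=
          hl ⟨c, IntermediateField.mem_adjoin_simple_self ℚ c⟩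
        rw [hchi] at h10
        obtain ⟨a, rfl⟩ := exists_coord hg l
        have h11 : ∑ k, (a k * β k ^ n - β i ^ n * a k) • g k = 0 := by
          rw [Finset.sum_congr rfl fun k _ => sub_smul (a k * β k ^ n) (β i ^ n * a k) (g k),
            Finset.sum_sub_distrib, sub_eq_zero]
          rw [Matrix.sum_vecMul] at h10
          have h12 : ∑ k, (a k • g k) ᵥ* Pool.Agent.Q64.IF.rQ d (σ ^ n) =
              ∑ k, (a k * β k ^ n) • g k := by
            refine Finset.sum_congr rfl fun k _ => ?_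
            rw [smul_vecMul, hrow, smul_smul]
          rw [← h12, h10, Finset.smul_sum]
          refine Finset.sum_congr rfl fun k _ => ?_
          rw [smul_smul]
        have h12 := Fintype.linearIndependent_iff.1 (rows_li hg) _ h11
        have h13 : ∀ k, k ≠ i → a k = 0 := by
          intro k hk
          have h14 := h12 k
          have h15 : a k * (β k ^ n - β i ^ n) = 0 := by linarith
          refine (mul_eq_zero.1 h15).resolve_right ?_
          have h16 : β k ^ n < β i ^ n :=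
            (pow_lt_one₀ (hβpos k).le (hi2 k hk) hn0).trans (one_lt_pow₀ hi1 hn0)
          exact (sub_neg.2 h16).ne
        have h14 : ∑ k, a k • g k = a i • g i := by
          refine Finset.sum_eq_single i (fun k _ hk => ?_) (fun h0 =>
            absurd (Finset.mem_univ _) h0)
          rw [h13 k hk, zero_smul]
        rw [h14]
        exact Submodule.smul_mem _ _ (Submodule.subset_span rfl)
      exact (Submodule.finrank_mono h9).trans
        ((finrank_span_le_card ({g i} : Set (Fin d → ℝ))).trans (by simp))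
    rcases Nat.le_one_iff_eq_zero_or_eq_one.1 h8 with h9 | h9
    · rw [h9, zero_mul] at h7
      omega
    · rw [h9, one_mul] at h7
      exact h7

/-- a matrix of degree `d` in the field of symmetries of a limit -/
lemma propInt_of_degree {g h : Matrix (Fin d) (Fin d) ℝ} (hd : 3 ≤ d) (hg : g.det ≠ 0)
    (hbd : BoundedBelow g) (hh : h ∈ closure (H715R2.Orb g)) {σ : Matrix (Fin d) (Fin d) ℚ}
    (hσ : σ ∈ K h) (hdeg : (minpoly ℚ σ).natDegree = d) : PropInt g := by
  have hd0 : 0 < d := by omega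
  obtain ⟨ν, hν, hF⟩ := hbd
  obtain ⟨b, hb⟩ := (mem_K.1 hσ) ⟨0, hd0⟩
  rcases Pool.Agent.Q64.IF.main_coprime hd hg hh {⟨0, hd0⟩} (Finset.singleton_nonempty _)
    (by
      intro h0
      have h6 := congrArg Finset.card h0
      rw [Finset.card_singleton, Finset.card_univ, Fintype.card_fin] at h6
      omega) (by rw [Finset.card_singleton]; exact Nat.coprime_one_left d)
    σ (Or.inl hdeg) (by
      intro i hi
      rw [Finset.mem_singleton] at hi
      subst hi
      rw [hb]
      exact Submodule.smul_mem _ _ (Submodule.subset_span ⟨_, Finset.mem_coe.2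
        (Finset.mem_singleton_self _), rfl⟩)) with h6 | h6
  · obtain ⟨x, hx, hx2⟩ := h6 ν hν
    exact absurd (hF x hx) (not_le.2 hx2)
  · exact h6

open Pool.Agent.H202.SG in
theorem result (d : ℕ) (hd : 3 ≤ d) (g : Matrix (Fin d) (Fin d) ℝ) (hg : g.det ≠ 0)
    (hbd : BoundedBelow g) :
    -- the degree of the field `K`
    finrank ℚ (K g) ∣ d ∧ (PropInt g ↔ finrank ℚ (K g) = d) ∧
    -- every similarity induces a permutation of the linear forms
    (∀ σ : Matrix (Fin d) (Fin d) ℚ, Similarity g σ →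
      ∃! π : Equiv.Perm (Fin d), Induces g σ π) ∧
    -- 1. and 2. the group of these permutations
    (∃ Γ : Subgroup (Equiv.Perm (Fin d)),
      (∀ π, π ∈ Γ ↔ ∃ σ : Matrix (Fin d) (Fin d) ℚ, Similarity g σ ∧ Induces g σ π) ∧
      (∀ i : Fin d, (∃ e, Nat.card (MulAction.stabilizer Γ i) = 2 ^ e) ∧
        Nat.card (MulAction.stabilizer Γ i) ∣ d / finrank ℚ (K g) ∧
        ∀ π ρ : MulAction.stabilizer Γ i, π * ρ = ρ * π) ∧
      Nat.card Γ ∣ 2 ^ padicValNat 2 (d / finrank ℚ (K g)) * d ∧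
      (Odd (d / finrank ℚ (K g)) → ∀ π ∈ Γ, ∀ i, π i = i → π = 1)) ∧
    (∀ σ : Matrix (Fin d) (Fin d) ℚ, Similarity g σ →
      σ ^ (2 ^ padicValNat 2 (d / finrank ℚ (K g)) * d) ∈ K g) ∧
    -- 3. the criterion
    (PropInt g ↔ ∃ h ∈ Limits g, ∃ σ : Matrix (Fin d) (Fin d) ℚ, Similarity h σ ∧
      (minpoly ℚ (σ ^ (2 ^ padicValNat 2 d * d))).natDegree = d) := by
  classical
  have hd0 : 0 < d := by omega
  have hA := aniso hbd
  have hm : d / finrank ℚ (K g) ≠ 0 := by
    rw [← card_cls' hg hA ⟨0, hd0⟩]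
    exact (Finset.card_pos.2 ⟨_, self_mem_cls hA _⟩).ne'
  have hdvd : finrank ℚ (K g) ∣ d := by
    rw [finrank_K hA ⟨0, hd0⟩]
    exact ⟨_, ((mul_comm _ _).trans (card_cls hg hA ⟨0, hd0⟩)).symm⟩
  refine ⟨hdvd, ⟨fun hP => ?_, fun hk => ?_⟩, fun σ hσ => ?_, ⟨perms g, fun π => ?_, fun i =>
    ⟨stab_two hg hA i, ?_, stab_comm hg hA i⟩, card_perms hg hA hm fun i => card_cls' hg hA i, ?_⟩,
    fun σ hσ => pow_mem hd0 hg hA hσ, ⟨fun hP => ?_, ?_⟩⟩
  · obtain ⟨σ, -, h1⟩ := exists_unit hd hg hbd hP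
    obtain ⟨h2, h3⟩ := h1 1 one_ne_zero
    rw [pow_one] at h2 h3
    obtain ⟨c, hc⟩ := (mem_K.1 h2) ⟨0, hd0⟩
    have h4 : chi hA ⟨0, hd0⟩ ⟨c, σ, hc⟩ = σ := chi_eq hA ⟨0, hd0⟩ ⟨c, σ, hc⟩ hc
    have h5 : (⟨c, σ, hc⟩ : fieldE hA ⟨0, hd0⟩) ∈ fieldK hA ⟨0, hd0⟩ := by
      rw [mem_fieldK, h4]
      exact mem_K.1 h2
    have h6 := minpoly.algHom_eq (chiK hA ⟨0, hd0⟩)
      (fun x y hxy => Subtype.ext (chi_injective hA ⟨0, hd0⟩ hxy)) ⟨_, h5⟩
    have h7 : chiK hA ⟨0, hd0⟩ ⟨_, h5⟩ = σ := h4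
    rw [h7] at h6
    have h8 := minpoly.natDegree_le (A := ℚ) (⟨_, h5⟩ : fieldK hA ⟨0, hd0⟩)
    rw [← h6, h3, ← finrank_K hA ⟨0, hd0⟩] at h8
    exact le_antisymm (Nat.le_of_dvd hd0 hdvd) h8
  · obtain ⟨α, hα⟩ := Field.exists_primitive_element ℚ (fieldK hA ⟨0, hd0⟩)
    have h1 : (minpoly ℚ α).natDegree = d := by
      rw [← IntermediateField.adjoin.finrank (Algebra.IsIntegral.isIntegral α), hα,
        IntermediateField.finrank_top', ← finrank_K hA ⟨0, hd0⟩, hk]
    have h2 := minpoly.algHom_eq (chiK hA ⟨0, hd0⟩)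
      (fun x y hxy => Subtype.ext (chi_injective hA ⟨0, hd0⟩ hxy)) α
    exact propInt_of_degree hd hg hbd (subset_closure (H715R2.mem_orb_self g))
      (σ := chiK hA ⟨0, hd0⟩ α) (mem_K.2 α.2) (by rw [h2, h1])
  · obtain ⟨π, hπ⟩ := exists_mono hg hσ
    refine ⟨π, (similarity_of_mono hπ).2, fun ρ hρ => ?_⟩
    exact (mono_of_induces hA hσ hρ).unique hg hπ
  · constructor
    · rintro ⟨σ, hσ⟩
      exact ⟨σ, similarity_of_mono hσ⟩
    · rintro ⟨σ, hσ, hσ2⟩
      exact ⟨σ, mono_of_induces hA hσ hσ2⟩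
  · rw [← card_cls' hg hA i]
    exact card_stab hg hA i
  · intro hodd π hπ i hi
    obtain ⟨e, he⟩ := stab_two hg hA i
    have h1 := card_stab hg hA i
    rw [card_cls' hg hA i, he] at h1
    have h2 : e = 0 := by
      by_contra he0
      have h3 : 2 ∣ d / finrank ℚ (K g) := (dvd_pow_self 2 he0).trans h1
      exact (Nat.not_even_iff_odd.2 hodd) (even_iff_two_dvd.2 h3)
    rw [h2, pow_zero] at he
    have h3 : Subsingleton (MulAction.stabilizer (perms g) i) :=
      (Nat.card_eq_one_iff_unique.1 he).1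
    set q : MulAction.stabilizer (perms g) i := ⟨⟨π, hπ⟩, hi⟩ with hq
    have h4 : q = 1 := Subsingleton.elim _ _
    have h5 := congrArg (fun z : MulAction.stabilizer (perms g) i =>
      ((z : perms g) : Equiv.Perm (Fin d))) h4
    exact h5
  · have hgl : g ∈ Limits g := by
      refine subset_closure ⟨1, 1, fun _ => one_pos, by simp, by simp, ?_⟩
      have h1 : (1 : Matrix (Fin d) (Fin d) ℤ).map (Int.cast : ℤ → ℝ) = 1 := by
        simp
      rw [h1, Matrix.mul_one]
      have h2 : diagonal (1 : Fin d → ℝ) = 1 := diagonal_one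
      rw [h2, Matrix.one_mul]
    obtain ⟨σ, hσ, h1⟩ := exists_unit hd hg hbd hP
    exact ⟨g, hgl, σ, hσ, (h1 _ (by positivity)).2⟩
  · rintro ⟨h, hh, σ, hσ, hdeg⟩
    have hh' := limits_closure hh
    have hhdet : h.det ≠ 0 := by
      intro h0
      have h1 := H715R2.abs_det_closure hh'
      rw [h0, abs_zero] at h1
      exact hg (abs_eq_zero.1 h1.symm)
    have hbd' : BoundedBelow h := by
      obtain ⟨ν, hν, hF⟩ := hbd
      exact ⟨ν, hν, H715R2.hasNu_closure (g := g) hF hh'⟩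
    have hA' := aniso hbd'
    have h1 := pow_mem hd0 hhdet hA' hσ
    refine propInt_of_degree hd hg hbd hh' (σ := σ ^ (2 ^ padicValNat 2 d * d)) ?_ hdeg
    have h3 : finrank ℚ (K h) ∣ d := by
      rw [finrank_K hA' ⟨0, hd0⟩]
      exact ⟨_, ((mul_comm _ _).trans (card_cls hhdet hA' ⟨0, hd0⟩)).symm⟩
    have h4 : padicValNat 2 (d / finrank ℚ (K h)) ≤ padicValNat 2 d :=
      (padicValNat_dvd_iff_le hd0.ne').1
        (pow_padicValNat_dvd.trans (Nat.div_dvd_of_dvd h3))
    obtain ⟨t, ht⟩ := pow_dvd_pow 2 h4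
    have h5 : 2 ^ padicValNat 2 d * d = 2 ^ padicValNat 2 (d / finrank ℚ (K h)) * d * t := by
      rw [ht]
      ring
    rw [h5, pow_mul]
    exact (K h).pow_mem h1 t

end Pool.Agent.Results.MP_edeaa2_an.SimilarityGroups
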